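import Mathlib
import Pool.Agent.K3h74.SS.Sf

/-!
# Products of two sets whose factorisations have labels with few values
-/

set_option autoImplicit false

open Finset
open scoped Pointwise

namespace Pool.Agent.K3h74.NF

open Pool.Agent.TH551.SU Pool.Agent.TH539.MQ Pool.Agent.K3h74.SS

theorem tau_mono {x y : ℕ} (hxy : x ≤ y) : tau x ≤ tau y :=
  Finset.sup_mono (Finset.Icc_subset_Icc le_rfl hxy)

set_option maxHeartbeats 4000000 in
open Classical in
/-- the abstract form of the counting argument -/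
theorem prod_abs {s : ℕ} (b : Fin s → ℕ) (hb : ∀ v, (b v).Prime)
    {PF : Type} [Fintype PF] (A B : Finset ℚ) (hA0 : ∀ a ∈ A, a ≠ 0)
    (hB0 : ∀ a ∈ B, a ≠ 0) (T C1 H d : ℕ) (hd : d ≠ 0) (hH1 : 1 ≤ H)
    (hT : ∀ a ∈ A, (A.filter fun x => IsSU b (x / a)).card ≤ T)
    (al be : ℚ → PF → ℚ) (hal0 : ∀ x P, 0 < al x P) (hbe0 : ∀ x P, 0 < be x P)
    (halbox : ∀ x P, al x P ∈ box H) (hbebox : ∀ x P, be x P ∈ box H)
    (hkey : ∀ N : ℚ, N ≠ 0 → ∃ (Y : Finset ℚ) (R : ℚ → PF → PF → ℚ) (S : ℚ → PF → ℚ),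
      Y.card ≤ C1 ∧ ∀ x ∈ A, N / x ∈ B → ∃ y ∈ Y, ∃ P P' Q Q' : PF,
        al x P' * be (N / x) Q' = R y P Q ∧ sf b x ^ d = al x P' * S y P) :
    A.card * B.card ≤ (C1 * Fintype.card PF ^ 4) * tau (H * H) ^ (6 * Fintype.card (PF × PF) + 2) *
      T * (A * B).card := by
  set m : ℕ := Fintype.card (PF × PF) with hm
  set m1 : ℕ := Fintype.card PF with hm1
  rcases A.eq_empty_or_nonempty with rfl | hAne
  · simp
  rcases B.eq_empty_or_nonempty with rfl | hBne
  · simp
  have hnumA : ∀ x P, 1 ≤ (al x P).num.natAbs ∧ (al x P).num.natAbs ≤ H := by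
    intro x P
    refine ⟨Int.natAbs_pos.2 (Rat.num_ne_zero.2 (hal0 x P).ne'), ?_⟩
    have h1 := (box_num (halbox x P)).1
    have h3 : ((al x P).num.natAbs : ℝ) ≤ H := by
      rw [Nat.cast_natAbs]
      push_cast
      exact h1
    exact_mod_cast h3
  have hdenA : ∀ x P, 1 ≤ (al x P).den ∧ (al x P).den ≤ H := fun x P =>
    ⟨(al x P).den_pos, by exact_mod_cast (box_num (halbox x P)).2⟩
  have hnumB : ∀ x P, 1 ≤ (be x P).num.natAbs ∧ (be x P).num.natAbs ≤ H := by
    intro x P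
    refine ⟨Int.natAbs_pos.2 (Rat.num_ne_zero.2 (hbe0 x P).ne'), ?_⟩
    have h1 := (box_num (hbebox x P)).1
    have h3 : ((be x P).num.natAbs : ℝ) ≤ H := by
      rw [Nat.cast_natAbs]
      push_cast
      exact h1
    exact_mod_cast h3
  have hdenB : ∀ x P, 1 ≤ (be x P).den ∧ (be x P).den ≤ H := fun x P =>
    ⟨(be x P).den_pos, by exact_mod_cast (box_num (hbebox x P)).2⟩
  -- the gcds
  let g : ℚ → ℚ → (PF × PF → ℕ × ℕ) := fun x y PQ =>
    (Nat.gcd (al x PQ.1).num.natAbs (be y PQ.2).den,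
      Nat.gcd (al x PQ.1).den (be y PQ.2).num.natAbs)
  set t : ℕ := (tau H * tau H) ^ m with ht
  have hline : ∀ F G : PF × PF → ℕ, (∀ q, 1 ≤ F q ∧ F q ≤ H) → (∀ q, 1 ≤ G q ∧ G q ≤ H) →
      (Fintype.piFinset fun q => (F q).divisors ×ˢ (G q).divisors).card ≤ t := by
    intro F G hF hG
    rw [Fintype.card_piFinset]
    calc ∏ q, ((F q).divisors ×ˢ (G q).divisors).card ≤ ∏ _q : PF × PF, (tau H * tau H) := by
          refine Finset.prod_le_prod' fun q _ => ?_
          rw [Finset.card_product]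
          exact Nat.mul_le_mul (le_tau (hF q).1 (hF q).2) (le_tau (hG q).1 (hG q).2)
      _ = t := by rw [Finset.prod_const, Finset.card_univ]
  obtain ⟨v, hv⟩ := popular A B hAne hBne g t (by
    intro x _
    refine (Finset.card_le_card ?_).trans (hline (fun q => (al x q.1).num.natAbs)
      (fun q => (al x q.1).den) (fun q => hnumA x q.1) (fun q => hdenA x q.1))
    intro z hz
    obtain ⟨y, _, rfl⟩ := Finset.mem_image.1 hz
    rw [Fintype.mem_piFinset]
    intro q
    rw [Finset.mem_product, Nat.mem_divisors, Nat.mem_divisors]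
    exact ⟨⟨Nat.gcd_dvd_left _ _, by have := (hnumA x q.1).1; omega⟩,
      ⟨Nat.gcd_dvd_left _ _, by have := (hdenA x q.1).1; omega⟩⟩) (by
    intro y _
    refine (Finset.card_le_card ?_).trans (hline (fun q => (be y q.2).den)
      (fun q => (be y q.2).num.natAbs) (fun q => hdenB y q.2) (fun q => hnumB y q.2))
    intro z hz
    obtain ⟨x, _, rfl⟩ := Finset.mem_image.1 hz
    rw [Fintype.mem_piFinset]
    intro q
    rw [Finset.mem_product, Nat.mem_divisors, Nat.mem_divisors]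
    exact ⟨⟨Nat.gcd_dvd_right _ _, by have := (hdenB y q.2).1; omega⟩,
      ⟨Nat.gcd_dvd_right _ _, by have := (hnumB y q.2).1; omega⟩⟩)
  set E := (A ×ˢ B).filter fun p => g p.1 p.2 = v with hE
  -- the fibres of the product map on `E`
  have hfib : E.card ≤ (C1 * (m1 * (m1 * (m1 * m1))) * (tau (H * H) * tau (H * H)) * T) *
      (A * B).card := by
    refine (Finset.card_le_mul_card_image (f := fun p : ℚ × ℚ => p.1 * p.2) E
      (C1 * (m1 * (m1 * (m1 * m1))) * (tau (H * H) * tau (H * H)) * T) ?_).trans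
      (Nat.mul_le_mul_left _ (Finset.card_le_card ?_))
    swap
    · intro z hz
      obtain ⟨p, hp, rfl⟩ := Finset.mem_image.1 hz
      rw [hE, Finset.mem_filter, Finset.mem_product] at hp
      exact Finset.mul_mem_mul hp.1.1 hp.1.2
    intro N hN
    have hN0 : N ≠ 0 := by
      obtain ⟨p, hp, rfl⟩ := Finset.mem_image.1 hN
      rw [hE, Finset.mem_filter, Finset.mem_product] at hp
      exact mul_ne_zero (hA0 _ hp.1.1) (hB0 _ hp.1.2)
    let X : Finset ℚ := (E.filter fun p : ℚ × ℚ => p.1 * p.2 = N).image Prod.fst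
    have hinj : (E.filter fun p : ℚ × ℚ => p.1 * p.2 = N).card ≤ X.card := by
      refine le_of_eq (Finset.card_image_of_injOn ?_).symm
      intro p hp p' hp' heq
      simp only [Finset.coe_filter, Set.mem_ofPred_eq, hE, Finset.mem_filter,
        Finset.mem_product] at hp hp'
      have h1 : p.1 = p'.1 := heq
      have h2 : p.1 * p.2 = p.1 * p'.2 := by
        rw [hp.2, h1, hp'.2]
      exact Prod.ext h1 (mul_left_cancel₀ (hA0 _ hp.1.1.1) h2)
    refine hinj.trans ?_
    have hX : ∀ x ∈ X, x ∈ A ∧ N / x ∈ B ∧ g x (N / x) = v := by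
      intro x hx
      obtain ⟨p, hp, rfl⟩ := Finset.mem_image.1 hx
      rw [Finset.mem_filter, hE, Finset.mem_filter, Finset.mem_product] at hp
      have h1 : p.1 ≠ 0 := hA0 _ hp.1.1.1
      have h2 : N / p.1 = p.2 := by
        rw [← hp.2, mul_div_cancel_left₀ _ h1]
      rw [h2]
      exact ⟨hp.1.1.1, hp.1.1.2, hp.1.2⟩
    obtain ⟨Y, R, S, hYcard, hY⟩ := hkey N hN0
    -- the possible values of `sf ^ d`
    let Λ : Finset (ℚ × PF × PF × PF × PF) := Y ×ˢ (Finset.univ ×ˢ (Finset.univ ×ˢ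
      (Finset.univ ×ˢ Finset.univ)))
    let vals : ℚ × PF × PF × PF × PF → Finset ℚ := fun l =>
      if R l.1 l.2.1 l.2.2.2.1 ∈ box (H * H) ∧ R l.1 l.2.1 l.2.2.2.1 ≠ 0 then
        ((R l.1 l.2.1 l.2.2.2.1).num.natAbs.divisors ×ˢ
          (R l.1 l.2.1 l.2.2.2.1).den.divisors).image (fun e : ℕ × ℕ =>
          (((v (l.2.2.1, l.2.2.2.2)).1 * e.1 : ℕ) : ℚ) / (((v (l.2.2.1, l.2.2.2.2)).2 * e.2 : ℕ) : ℚ) *
            S l.1 l.2.1)
      else ∅
    have hvals : ∀ l, (vals l).card ≤ tau (H * H) * tau (H * H) := by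
      intro l
      simp only [vals]
      split_ifs with h1
      · refine Finset.card_image_le.trans ?_
        rw [Finset.card_product]
        have h2 := box_num h1.1
        refine Nat.mul_le_mul (le_tau (Int.natAbs_pos.2 (Rat.num_ne_zero.2 h1.2)) ?_)
          (le_tau (Rat.den_pos _) (by exact_mod_cast h2.2))
        have h3 : ((R l.1 l.2.1 l.2.2.2.1).num.natAbs : ℝ) ≤ ((H * H : ℕ) : ℝ) := by
          rw [Nat.cast_natAbs]
          push_cast
          push_cast at h2
          exact h2.1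
        exact_mod_cast h3
      · rw [Finset.card_empty]
        exact Nat.zero_le _
    have hsf : ∀ x ∈ X, sf b x ^ d ∈ Λ.biUnion vals := by
      intro x hx
      obtain ⟨hxA, hxB, hgx⟩ := hX x hx
      obtain ⟨y, hy, P, P', Q, Q', hRR, hS⟩ := hY x hxA hxB
      have hRbox : R y P Q ∈ box (H * H) := by
        rw [← hRR]
        exact box_mul (halbox _ _) (hbebox _ _)
      have hRne : R y P Q ≠ 0 := by
        rw [← hRR]
        exact (mul_pos (hal0 _ _) (hbe0 _ _)).ne'
      obtain ⟨e1, he1, e2, he2, he⟩ := gcd_factor (hal0 x P') (hbe0 (N / x) Q')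
      rw [hRR] at he1 he2
      have hg1 : Nat.gcd (al x P').num.natAbs (be (N / x) Q').den = (v (P', Q')).1 := by
        rw [← hgx]
      have hg2 : Nat.gcd (al x P').den (be (N / x) Q').num.natAbs = (v (P', Q')).2 := by
        rw [← hgx]
      rw [hg1, hg2] at he
      rw [Finset.mem_biUnion]
      refine ⟨(y, P, P', Q, Q'), ?_, ?_⟩
      · simp only [Λ, Finset.mem_product, Finset.mem_univ, and_true]
        exact hy
      · simp only [vals]
        rw [if_pos ⟨hRbox, hRne⟩, Finset.mem_image]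
        refine ⟨(e1, e2), Finset.mem_product.2 ⟨he1, he2⟩, ?_⟩
        simp only
        rw [← he, hS]
    -- count
    have hcov : X ⊆ (Λ.biUnion vals).biUnion fun z => A.filter fun x => sf b x ^ d = z := by
      intro x hx
      exact Finset.mem_biUnion.2 ⟨sf b x ^ d, hsf x hx, Finset.mem_filter.2 ⟨(hX x hx).1, rfl⟩⟩
    have hfibT : ∀ z ∈ Λ.biUnion vals, (A.filter fun x => sf b x ^ d = z).card ≤ T := by
      intro z _
      rcases (A.filter fun x => sf b x ^ d = z).eq_empty_or_nonempty with h0 | ⟨x0, hx0⟩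
      · rw [h0, Finset.card_empty]
        exact Nat.zero_le _
      · rw [Finset.mem_filter] at hx0
        refine (Finset.card_le_card ?_).trans (hT x0 hx0.1)
        intro x hx
        rw [Finset.mem_filter] at hx ⊢
        have h1 : sf b x = sf b x0 :=
          (pow_left_inj₀ (sf_pos b hb (hA0 x hx.1)).le (sf_pos b hb (hA0 x0 hx0.1)).le hd).1
            (hx.2.trans hx0.2.symm)
        exact ⟨hx.1, isSU_of_sf_eq b hb (hA0 x hx.1) (hA0 x0 hx0.1) h1⟩
    have hΛ : Λ.card ≤ C1 * (m1 * (m1 * (m1 * m1))) := by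
      simp only [Λ, Finset.card_product, Finset.card_univ]
      exact Nat.mul_le_mul_right _ hYcard
    calc X.card ≤ ((Λ.biUnion vals).biUnion fun z => A.filter fun x => sf b x ^ d = z).card :=
          Finset.card_le_card hcov
      _ ≤ (Λ.biUnion vals).card * T := Finset.card_biUnion_le_card_mul _ _ _ hfibT
      _ ≤ (Λ.card * (tau (H * H) * tau (H * H))) * T :=
          Nat.mul_le_mul_right _ (Finset.card_biUnion_le_card_mul _ _ _ fun l _ => hvals l)
      _ ≤ (C1 * (m1 * (m1 * (m1 * m1))) * (tau (H * H) * tau (H * H))) * T :=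
          Nat.mul_le_mul_right _ (Nat.mul_le_mul_right _ hΛ)
  -- conclusion
  have hHH : H ≤ H * H := Nat.le_mul_of_pos_left _ hH1
  have ht1 : t ≤ tau (H * H) ^ (2 * m) := by
    rw [ht, pow_mul, pow_two]
    exact Nat.pow_le_pow_left (Nat.mul_le_mul (tau_mono hHH) (tau_mono hHH)) _
  calc A.card * B.card ≤ t ^ 3 * E.card := hv
    _ ≤ t ^ 3 * ((C1 * (m1 * (m1 * (m1 * m1))) * (tau (H * H) * tau (H * H)) * T) *
      (A * B).card) := Nat.mul_le_mul_left _ hfib
    _ ≤ (tau (H * H) ^ (2 * m)) ^ 3 *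
        ((C1 * (m1 * (m1 * (m1 * m1))) * (tau (H * H) * tau (H * H)) * T) * (A * B).card) :=
        Nat.mul_le_mul_right _ (Nat.pow_le_pow_left ht1 _)
    _ = (C1 * m1 ^ 4) * tau (H * H) ^ (6 * m + 2) * T * (A * B).card := by ring

end Pool.Agent.K3h74.NF
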