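import Mathlib
import Pool.Agent.K3h74.SS.Wt
import Pool.Agent.K3h74.SS.Fin2
import Pool.Agent.Y215.SK.Grps

/-!
# Germs of elements of a finitely generated group of algebraic numbers form a system
-/

set_option autoImplicit false

open Filter Topology Polynomial

namespace Pool.Agent.K3h74.NF

open Pool.Agent.Y215.SK Pool.Agent.Helper259.AbsHt Pool.Agent.K3h74.SS

theorem wt_sys {F : Type} [Field F] (K : Subfield F)
    (hroot : ∀ (g : F) (m : ℕ), m ≠ 0 → g ^ m ∈ K → g ∈ K) (τ : Type) [Fintype τ] (u : τ → F)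
    (hu : ∀ t, u t ≠ 0) : ∃ l : τ → ℕ,
    (∀ a b c d : τ, (u a * u b) / (u c * u d) ∈ K → l a + l b = l c + l d) ∧
    ∀ a b : τ, l a = l b → u a / u b ∈ K := by
  classical
  let e := Fintype.equivFin τ
  obtain ⟨l, hl1, hl2⟩ := Pool.Agent.K3h74.SS.WT.wt_gen K hroot (Fintype.card τ)
    (fun j => u (e.symm j)) (fun j => hu _)
  refine ⟨fun t => l (e t), ?_, ?_⟩
  · intro p q p' q' hmem
    have hsum : ∀ x y : τ, ∑ j, (Pi.single (e x) 1 + Pi.single (e y) 1 : Fin _ → ℕ) j = 2 := by
      intro x y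
      simp only [Pi.add_apply, Finset.sum_add_distrib, Finset.sum_pi_single', Finset.mem_univ,
        if_true]
    have hprod : ∀ x y : τ, ∏ j, u (e.symm j) ^
        ((Pi.single (e x) 1 + Pi.single (e y) 1 : Fin _ → ℕ) j) = u x * u y := by
      intro x y
      simp only [Pi.add_apply, pow_add, Finset.prod_mul_distrib]
      have hone : ∀ z : τ, ∏ j, u (e.symm j) ^ ((Pi.single (e z) 1 : Fin _ → ℕ) j) = u z := by
        intro z
        rw [Finset.prod_eq_single (e z)]
        · simp
        · intro j _ hj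
          rw [Pi.single_eq_of_ne hj, pow_zero]
        · intro h
          exact absurd (Finset.mem_univ _) h
      rw [hone, hone]
    have hwt : ∀ x y : τ, ∑ j, (Pi.single (e x) 1 + Pi.single (e y) 1 : Fin _ → ℕ) j * l j =
        l (e x) + l (e y) := by
      intro x y
      simp only [Pi.add_apply, add_mul, Finset.sum_add_distrib]
      have hone : ∀ z : τ, ∑ j, (Pi.single (e z) 1 : Fin _ → ℕ) j * l j = l (e z) := by
        intro z
        rw [Finset.sum_eq_single (e z)]
        · simp
        · intro j _ hj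
          rw [Pi.single_eq_of_ne hj, zero_mul]
        · intro h
          exact absurd (Finset.mem_univ _) h
      rw [hone, hone]
    have h1 := hl1 (Pi.single (e p) 1 + Pi.single (e q) 1) (Pi.single (e p') 1 +
      Pi.single (e q') 1) (by rw [hsum, hsum]) (by rw [hprod, hprod]; exact hmem)
    rw [hwt, hwt] at h1
    exact h1
  · intro x y hxy
    have := hl2 (e x) (e y) hxy
    simpa using this

/-- germs of sequences in `Γ` -/
def GU (Γ : Subgroup Qbarˣ) : Set GQ :=
  {g | ∃ a : ℕ → Qbarˣ, g = gm (fun n => (a n : Qbar)) ∧ ∀ n, a n ∈ Γ}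

theorem sysK (Γ : Subgroup Qbarˣ) (hΓ : Γ.FG) (L : ℕ → ℝ) (hL : Tendsto L atTop atTop) :
    Sys (KK L hL) (GU Γ) := by
  classical
  obtain ⟨ρ, D, C0, hD⟩ := exists_grp Γ hΓ
  refine ⟨?_, ?_, ?_, ?_, ?_⟩
  · rintro g ⟨a, rfl, ha⟩
    rw [gm_ne_zero]
    exact Eventually.of_forall fun n => (a n).ne_zero
  · rintro g ⟨a, rfl, ha⟩ g' ⟨a', rfl, ha'⟩
    refine ⟨fun n => a n * a' n, ?_, fun n => Γ.mul_mem (ha n) (ha' n)⟩
    rw [gm_mul]
    simp
  · rintro g ⟨a, rfl, ha⟩ g' ⟨a', rfl, ha'⟩
    refine ⟨fun n => a n / a' n, ?_, fun n => Γ.div_mem (ha n) (ha' n)⟩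
    rw [gm_div]
    simp
  · intro ι A a g w ha hg hw hsum
    -- the representations of the units
    have hrep : ∀ i : A, ∃ (s : ℕ → Qbar) (q : ℕ → Fin ρ → ℤ), gm s ∈ KK L hL ∧
        g i = gm s * yy D q := by
      intro i
      obtain ⟨x, hx, hxΓ⟩ := hg i i.2
      choose s q hs0 hs hsq using fun n => hD (x n) ⟨1, one_pos, by rw [pow_one]; exact hxΓ n⟩
      refine ⟨s, q, mem_KK_of_le s C0 (Eventually.of_forall hs), ?_⟩
      rw [hx]
      unfold yy
      rw [gm_mul]
      congr 1
      funext n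
      exact hsq n
    choose s q hs hsq using hrep
    have hR : Equivalence (fun i j : A => yy D (q i) / yy D (q j) ∈ KK L hL) := by
      refine ⟨fun i => ?_, fun {i j} hij => ?_, fun {i j k} hij hjk => ?_⟩
      · rw [div_self (yy_ne D _)]
        exact (KK L hL).one_mem
      · have := (KK L hL).inv_mem hij
        rwa [inv_div] at this
      · have h1 := (KK L hL).mul_mem hij hjk
        have h2 := yy_ne D (q j)
        have h3 : yy D (q i) / yy D (q j) * (yy D (q j) / yy D (q k)) =
            yy D (q i) / yy D (q k) := by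
          field_simp
        rwa [h3] at h1
    obtain ⟨f, hf1, hf2⟩ := exists_rep _ hR
    have hcl := fun b => class_sums D L hL (A := A) (fun n i => q i n) (fun i => a i * gm (s i))
      (fun i => (KK L hL).mul_mem (ha i i.2) (hs i)) (by
        rw [← hsum, ← Finset.sum_coe_sort A]
        refine Finset.sum_congr rfl fun i _ => ?_
        rw [hsq i]
        ring) f hf1 hf2 b
    have hwf : ∀ i : A, w i = w (f i) := by
      intro i
      apply hw i i.2 (f i) (f i).2
      have h1 : yy D (q i) / yy D (q (f i)) ∈ KK L hL := (hf1 i (f i)).1 (hf2 i).symm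
      rw [hsq i, hsq (f i)]
      have h2 : gm (s (f i)) ≠ 0 := by
        intro h0
        have h3 := hsq (f i)
        rw [h0, zero_mul] at h3
        obtain ⟨x, hx, hxΓ⟩ := hg (f i) (f i).2
        rw [hx] at h3
        exact (gm_ne_zero.2 (Eventually.of_forall fun n => (x n).ne_zero)) h3
      have h3 := yy_ne D (q (f i))
      have h4 : gm (s i) * yy D (q i) / (gm (s (f i)) * yy D (q (f i))) =
          gm (s i) * (gm (s (f i)))⁻¹ * (yy D (q i) / yy D (q (f i))) := by
        field_simp
      rw [h4]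
      exact (KK L hL).mul_mem ((KK L hL).mul_mem (hs i) ((KK L hL).inv_mem (hs (f i)))) h1
    rw [← Finset.sum_coe_sort A (fun i => C (a i * g i) * X ^ (w i)),
      ← Finset.sum_fiberwise Finset.univ f]
    refine Finset.sum_eq_zero fun b _ => ?_
    have h5 : ∀ i ∈ Finset.univ.filter (fun i => f i = b), C (a i * g i) * (X : GQ[X]) ^ (w i) =
        C (a i * gm (s i) * yy D (q i)) * X ^ (w b) := by
      intro i hi
      have hi' := (Finset.mem_filter.1 hi).2
      rw [hwf i, hi', hsq i, mul_assoc]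
    rw [Finset.sum_congr rfl h5, ← Finset.sum_mul, ← map_sum C]
    have h6 := hcl b
    have h7 : ∑ i ∈ Finset.univ.filter (fun i => f i = b), a i * gm (s i) * yy D (q i) = 0 := h6
    rw [h7, C_0, zero_mul]
  · intro τ _ u hu
    exact wt_sys _ (fun g m hm h => mem_of_pow g m (Nat.pos_of_ne_zero hm) h) τ u hu

end Pool.Agent.K3h74.NF
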