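import Mathlib
import Pool.Agent.K3h74.NF.Sys

/-!
# Classes of sparse factorisations and equal blocks over number fields
-/

set_option autoImplicit false
set_option linter.unusedSectionVars false

open Filter Topology

namespace Pool.Agent.K3h74.NF

open Height Pool.Agent.Y215.SK Pool.Agent.Helper259.AbsHt Pool.Agent.K3h74.SS Module

/-- the scale -/
noncomputable def LK (h : ℕ → ℝ) (n : ℕ) : ℝ := ((n : ℝ) + 1) * (1 + h n)

theorem LK_tendsto {h : ℕ → ℝ} (hh : ∀ n, 0 ≤ h n) : Tendsto (LK h) atTop atTop := by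
  have h1 : Tendsto (fun n : ℕ => (n : ℝ) + 1) atTop atTop :=
    tendsto_atTop_add_const_right _ _ tendsto_natCast_atTop_atTop
  refine tendsto_atTop_mono (fun n => ?_) h1
  rw [LK]
  have := hh n
  have h2 : (0 : ℝ) ≤ n := Nat.cast_nonneg _
  nlinarith

variable {K : Type} [Field K] [NumberField K] (φ : K →+* Qbar)

theorem LK_KK {h : ℕ → ℝ} (hh : ∀ n, 0 ≤ h n) (C : ℝ) (c : ℕ → K)
    (hc : ∀ n, logHeight₁ (c n) ≤ C * (1 + h n)) :
    gm (fun n => φ (c n)) ∈ KK (LK h) (LK_tendsto hh) := by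
  rw [mem_KK]
  intro ε hε
  apply ev_of_atTop
  obtain ⟨N, hN⟩ := exists_nat_gt (C / ε)
  filter_upwards [eventually_ge_atTop N] with n hn
  have hd : (1 : ℝ) ≤ finrank ℚ K := by exact_mod_cast finrank_pos (R := ℚ) (M := K)
  have h1 : h1 (φ (c n)) ≤ logHeight₁ (c n) := by
    rw [h1_eq K φ]
    exact div_le_self (zero_le_logHeight₁ _) hd
  refine h1.trans ((hc n).trans ?_)
  rw [LK, ← mul_assoc]
  refine mul_le_mul_of_nonneg_right ?_ (by have := hh n; linarith)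
  have h2 : (C / ε) < (n : ℝ) + 1 := by
    refine hN.trans_le ?_
    have : (N : ℝ) ≤ n := by exact_mod_cast hn
    linarith
  rw [div_lt_iff₀ hε] at h2
  linarith

theorem KK_LK {h : ℕ → ℝ} (hh : ∀ n, 0 ≤ h n) (c : ℕ → K)
    (hc : gm (fun n => φ (c n)) ∈ KK (LK h) (LK_tendsto hh)) :
    ∀ᶠ n in (UU : Filter ℕ), logHeight₁ (c n) ≤ ((n : ℝ) + 1) * (1 + h n) := by
  rw [mem_KK] at hc
  have hd : (0 : ℝ) < finrank ℚ K := by exact_mod_cast finrank_pos (R := ℚ) (M := K)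
  filter_upwards [hc (1 / finrank ℚ K) (by positivity)] with n hn
  rw [h1_eq K φ, div_le_iff₀ hd] at hn
  refine hn.trans (le_of_eq ?_)
  rw [LK]
  field_simp

/-- a sum of `k` terms `c u` with `c` of logarithmic height at most `h` and `u` in `Γ` -/
def ShK (Γ : Subgroup Kˣ) (k : ℕ) (h : ℝ) (x : K) : Prop :=
  ∃ (c : Fin k → K) (u : Fin k → Kˣ), (∀ j, logHeight₁ (c j) ≤ h) ∧ (∀ j, u j ∈ Γ) ∧
    x = ∑ j, c j * (u j : K)

/-- the image of the group -/
noncomputable def im (Γ : Subgroup Kˣ) : Subgroup Qbarˣ := Γ.map (Units.map φ.toMonoidHom)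

theorem im_fg {Γ : Subgroup Kˣ} (hΓ : Γ.FG) : (im φ Γ).FG := by
  classical
  unfold im
  obtain ⟨S, hS⟩ := hΓ
  refine ⟨S.image (Units.map φ.toMonoidHom), ?_⟩
  rw [← hS, MonoidHom.map_closure, Finset.coe_image]

theorem GU_im {Γ : Subgroup Kˣ} (u : ℕ → Kˣ) (hu : ∀ n, u n ∈ Γ) :
    gm (fun n => φ (u n : K)) ∈ GU (im φ Γ) :=
  ⟨fun n => Units.map φ.toMonoidHom (u n), rfl, fun n => Subgroup.mem_map_of_mem _ (hu n)⟩

theorem GU_im' {Γ : Subgroup Kˣ} {g : GQ} (hg : g ∈ GU (im φ Γ)) :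
    ∃ u : ℕ → Kˣ, (∀ n, u n ∈ Γ) ∧ g = gm (fun n => φ (u n : K)) := by
  obtain ⟨a, rfl, ha⟩ := hg
  choose u hu hua using fun n => Subgroup.mem_map.1 (ha n)
  refine ⟨u, hu, ?_⟩
  congr 1
  funext n
  rw [← hua n]
  rfl

theorem exists_repsF {F : Type} (r : F → F → Prop) (X : Finset F) (hrefl : ∀ x ∈ X, r x x)
    (hsymm : ∀ x ∈ X, ∀ y ∈ X, r x y → r y x) :
    ∃ R ⊆ X, (∀ x ∈ R, ∀ y ∈ R, x ≠ y → ¬ r x y) ∧ ∀ x ∈ X, ∃ y ∈ R, r x y := by
  classical
  let good : Finset F → Prop := fun Y => ∀ x ∈ Y, ∀ y ∈ Y, x ≠ y → ¬ r x y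
  obtain ⟨Y, hY, hmax⟩ := Finset.exists_max_image (X.powerset.filter good) Finset.card
    ⟨∅, Finset.mem_filter.2 ⟨Finset.empty_mem_powerset _, fun x hx => absurd hx (Finset.notMem_empty _)⟩⟩
  rw [Finset.mem_filter, Finset.mem_powerset] at hY
  refine ⟨Y, hY.1, hY.2, ?_⟩
  intro x hx
  by_contra hcon
  push Not at hcon
  have hxY : x ∉ Y := fun h => hcon x h (hrefl x hx)
  have hgood : good (insert x Y) := by
    intro z hz w hw hzw hr
    rw [Finset.mem_insert] at hz hw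
    rcases hz with rfl | hz <;> rcases hw with rfl | hw
    · exact hzw rfl
    · exact hcon w hw hr
    · exact hcon z hz (hsymm z (hY.1 hz) w hx hr)
    · exact hY.2 z hz w hw hzw hr
  have h1 := hmax (insert x Y) (Finset.mem_filter.2 ⟨Finset.mem_powerset.2
    (Finset.insert_subset hx hY.1), hgood⟩)
  rw [Finset.card_insert_of_notMem hxY] at h1
  omega

/-- **Few classes of sparse factorisations.** -/
theorem classesK (Γ : Subgroup Kˣ) (hΓ : Γ.FG) (k : ℕ) :
    ∃ C : ℕ, ∀ h : ℝ, 0 ≤ h → ∀ N : K, N ≠ 0 → ∀ X : Finset K,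
      (∀ x ∈ X, x ≠ 0 ∧ ShK Γ k h x ∧ ShK Γ k h (N / x)) →
      ∃ Y ⊆ X, Y.card ≤ C ∧ ∀ x ∈ X, ∃ y ∈ Y, ∃ (u : Kˣ) (f : K), u ∈ Γ ∧
        logHeight₁ f ≤ C * (1 + h) ∧ x = u * f * y := by
  classical
  obtain ⟨φ⟩ : Nonempty (K →+* Qbar) :=
    ⟨(IsAlgClosed.lift (R := ℚ) (S := K) (M := Qbar)).toRingHom⟩
  by_contra hcon
  push Not at hcon
  choose h hh N hN X hX hbad using fun n : ℕ => hcon (n + 1)
  -- separated sets
  have hsep : ∀ n, ∃ Y ⊆ X n, n + 1 < Y.card ∧ ∀ x ∈ Y, ∀ y ∈ Y, x ≠ y → ∀ (u : Kˣ) (f : K),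
      u ∈ Γ → logHeight₁ f ≤ ((n + 1 : ℕ) : ℝ) * (1 + h n) → x ≠ u * f * y := by
    intro n
    obtain ⟨R, hR, h1, h2⟩ := exists_repsF (fun x y : K => ∃ (u : Kˣ) (f : K), u ∈ Γ ∧
      logHeight₁ f ≤ ((n + 1 : ℕ) : ℝ) * (1 + h n) ∧ x = u * f * y) (X n) (fun x _ =>
        ⟨1, 1, Γ.one_mem, by
          rw [logHeight₁_one]
          have := hh n
          positivity, by simp⟩) (by
        rintro x hx y hy ⟨u, f, hu, hf, hxy⟩
        have hx0 := (hX n x hx).1
        have hf0 : f ≠ 0 := by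
          rintro rfl
          apply hx0
          rw [hxy]
          ring
        refine ⟨u⁻¹, f⁻¹, Γ.inv_mem hu, by rw [logHeight₁_inv]; exact hf, ?_⟩
        rw [hxy, Units.val_inv_eq_inv_val]
        have := u.ne_zero
        field_simp)
    refine ⟨R, hR, ?_, ?_⟩
    · by_contra hle
      obtain ⟨x, hx, hx'⟩ := hbad n R hR (not_lt.1 hle)
      obtain ⟨y, hy, u, f, hu, hf, hxy⟩ := h2 x hx
      exact hx' y hy u f hu hf hxy
    · intro x hx y hy hxy u f hu hf heq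
      exact h1 x hx y hy hxy ⟨u, f, hu, hf, heq⟩
  choose Y hYX hYcard hY using hsep
  have hYinf : ∀ i : ℕ, ∀ᶠ n in (UU : Filter ℕ), i < (Y n).card := by
    intro i
    apply ev_of_atTop
    filter_upwards [eventually_ge_atTop i] with n hn
    have := hYcard n
    omega
  -- the germs
  let a : ℕ → ℕ → K := fun i n => if hi : i < (Y n).card then
    ((Y n).equivFin.symm ⟨i, hi⟩ : K) else 1
  have ha_mem : ∀ i n, i < (Y n).card → a i n ∈ Y n := by
    intro i n hi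
    simp only [a, dif_pos hi]
    exact ((Y n).equivFin.symm ⟨i, hi⟩).2
  have ha_inj : ∀ i i' n, i ≠ i' → i < (Y n).card → i' < (Y n).card → a i n ≠ a i' n := by
    intro i i' n hne hi hi' heq
    simp only [a, dif_pos hi, dif_pos hi'] at heq
    have h1 := (Y n).equivFin.symm.injective (Subtype.ext heq)
    exact hne (Fin.mk.inj_iff.1 h1)
  have hrep : ∀ y : ℕ → K, (∀ᶠ n in (UU : Filter ℕ), ShK Γ k (h n) (y n)) →
      ∃ c u : Fin k → GQ, (∀ j, c j ∈ KK (LK h) (LK_tendsto hh)) ∧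
        (∀ j, u j ∈ GU (im φ Γ)) ∧ gm (fun n => φ (y n)) = ∑ j, c j * u j := by
    intro y hy
    have hch : ∀ n, ∃ (c : Fin k → K) (u : Fin k → Kˣ), (∀ j, logHeight₁ (c j) ≤ h n) ∧
        (∀ j, u j ∈ Γ) ∧ (ShK Γ k (h n) (y n) → y n = ∑ j, c j * (u j : K)) := by
      intro n
      by_cases hs : ShK Γ k (h n) (y n)
      · obtain ⟨c, u, h1, h2, h3⟩ := hs
        exact ⟨c, u, h1, h2, fun _ => h3⟩
      · exact ⟨fun _ => 0, fun _ => 1, fun _ => by rw [logHeight₁_zero]; exact hh n,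
          fun _ => Γ.one_mem, fun h => absurd h hs⟩
    choose c u h1 h2 h3 using hch
    refine ⟨fun j => gm (fun n => φ (c n j)), fun j => gm (fun n => φ (u n j : K)),
      fun j => LK_KK φ hh 1 _ fun n => ?_, fun j => GU_im φ _ fun n => h2 n j, ?_⟩
    · have := h1 n j
      linarith
    · simp only [gm_mul]
      rw [gm_sum, gm_eq]
      filter_upwards [hy] with n hn
      rw [h3 n hn, map_sum]
      refine Finset.sum_congr rfl fun j _ => ?_
      rw [map_mul]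
  have hS := sysK (im φ Γ) (im_fg φ hΓ) (LK h) (LK_tendsto hh)
  obtain ⟨i, i', hne, g, hg, f, hf, heq⟩ := hS.finiteness (κ := Fin k)
    (N := gm fun n => φ (N n))
    (gm_ne_zero.2 (Eventually.of_forall fun n => (map_ne_zero φ).2 (hN n)))
    (fun i => gm (fun n => φ (a i n))) (fun i => gm (fun n => φ (N n / a i n)))
    (fun i => hrep _ (by
      filter_upwards [hYinf i] with n hn
      exact (hX n _ (hYX n (ha_mem i n hn))).2.1))
    (fun i => hrep _ (by
      filter_upwards [hYinf i] with n hn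
      exact (hX n _ (hYX n (ha_mem i n hn))).2.2))
    (fun i => by
      rw [gm_mul, gm_eq]
      filter_upwards [hYinf i] with n hn
      have := (hX n _ (hYX n (ha_mem i n hn))).1
      rw [← map_mul, mul_div_cancel₀ _ this])
  obtain ⟨u, hu, rfl⟩ := GU_im' φ hg
  obtain ⟨f', rfl⟩ := gm_surj f
  simp only [gm_mul] at heq
  rw [gm_eq] at heq
  -- the factor lies in `K`
  let f'' : ℕ → K := fun n => a i n / ((u n : K) * a i' n)
  have hf'' : ∀ᶠ n in (UU : Filter ℕ), f' n = φ (f'' n) ∧ a i n = u n * f'' n * a i' n := by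
    filter_upwards [heq, hYinf i'] with n hn h5
    have h6 := (hX n _ (hYX n (ha_mem i' n h5))).1
    have h7 : φ (a i' n) ≠ 0 := (map_ne_zero φ).2 h6
    have h8 : (u n : K) ≠ 0 := (u n).ne_zero
    have h9 : φ (u n : K) ≠ 0 := (map_ne_zero φ).2 h8
    refine ⟨?_, ?_⟩
    · simp only [f'']
      rw [map_div₀, map_mul, hn]
      field_simp
    · simp only [f'']
      field_simp
  have hfK : gm (fun n => φ (f'' n)) ∈ KK (LK h) (LK_tendsto hh) := by
    have e : gm f' = gm (fun n => φ (f'' n)) := by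
      rw [gm_eq]
      filter_upwards [hf''] with n hn
      exact hn.1
    rw [← e]
    exact hf
  have hfb := KK_LK φ hh f'' hfK
  obtain ⟨n, h1, h3, h4, h5⟩ := (hfb.and (hf''.and ((hYinf i).and (hYinf i')))).exists
  exact hY n (a i n) (ha_mem i n h4) (a i' n) (ha_mem i' n h5) (ha_inj i i' n hne h4 h5)
    (u n) (f'' n) (hu n) (by push_cast; exact h1) h3.2

end Pool.Agent.K3h74.NF
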