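import Mathlib
import Pool.Agent.K3h74.NF.Classes

/-!
# Equal blocks in proportional short sums over number fields
-/

set_option autoImplicit false
set_option linter.unusedSectionVars false

open Filter Topology

namespace Pool.Agent.K3h74.NF

open Height Pool.Agent.Y215.SK Pool.Agent.Helper259.AbsHt Pool.Agent.K3h74.SS Module

variable {K : Type} [Field K] [NumberField K]

set_option maxHeartbeats 1000000 in
/-- two proportional nonzero short sums have proportional nonzero blocks, the first of which is a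
unit times a number of small height -/
theorem blocksK (Γ : Subgroup Kˣ) (hΓ : Γ.FG) (k C1 : ℕ) :
    ∃ C : ℕ, ∀ h : ℝ, 0 ≤ h → ∀ (c : Fin k → K) (u : Fin k → Kˣ) (c' : Fin k → K)
      (u' : Fin k → Kˣ), (∀ i, logHeight₁ (c i) ≤ h) → (∀ i, logHeight₁ (c' i) ≤ h) →
      (∀ i, u i ∈ Γ) → (∀ i, u' i ∈ Γ) → ∀ (w : Kˣ) (f : K), w ∈ Γ →
      logHeight₁ f ≤ C1 * (1 + h) →
      ∑ i, c' i * (u' i : K) = w * f * ∑ i, c i * (u i : K) → ∑ i, c' i * (u' i : K) ≠ 0 →
      ∃ P' P : Finset (Fin k), ∑ i ∈ P', c' i * (u' i : K) = w * f * ∑ i ∈ P, c i * (u i : K) ∧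
        ∑ i ∈ P', c' i * (u' i : K) ≠ 0 ∧ ∃ v ∈ Γ,
          logHeight₁ ((∑ i ∈ P', c' i * (u' i : K)) / (v : K)) ≤ C * (1 + h) := by
  classical
  obtain ⟨φ⟩ : Nonempty (K →+* Qbar) :=
    ⟨(IsAlgClosed.lift (R := ℚ) (S := K) (M := Qbar)).toRingHom⟩
  by_contra hcon
  push Not at hcon
  choose h hh c u c' u' hc hc' hu hu' w f hw hf heq hne hbad using fun n : ℕ => hcon (n + 1)
  set KK' := KK (LK h) (LK_tendsto hh) with hK
  have hS := sysK (im φ Γ) (im_fg φ hΓ) (LK h) (LK_tendsto hh)
  rw [← hK] at hS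
  -- germs
  let gc : Fin k → GQ := fun i => gm fun n => φ (c n i)
  let gu : Fin k → GQ := fun i => gm fun n => φ (u n i : K)
  let gc' : Fin k → GQ := fun i => gm fun n => φ (c' n i)
  let gu' : Fin k → GQ := fun i => gm fun n => φ (u' n i : K)
  let gf : GQ := gm fun n => φ (f n)
  let gw : GQ := gm fun n => φ (w n : K)
  have hgc : ∀ i, gc i ∈ KK' := fun i => LK_KK φ hh 1 _ fun n => by
    have := hc n i
    linarith
  have hgc' : ∀ i, gc' i ∈ KK' := fun i => LK_KK φ hh 1 _ fun n => by
    have := hc' n i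
    linarith
  have hgf : gf ∈ KK' := LK_KK φ hh C1 _ fun n => hf n
  have hgu : ∀ i, gu i ∈ GU (im φ Γ) := fun i => GU_im φ _ fun n => hu n i
  have hgu' : ∀ i, gu' i ∈ GU (im φ Γ) := fun i => GU_im φ _ fun n => hu' n i
  have hgw : gw ∈ GU (im φ Γ) := GU_im φ _ hw
  have hsum' : ∀ P : Finset (Fin k), ∑ i ∈ P, gc' i * gu' i =
      gm (fun n => φ (∑ i ∈ P, c' n i * (u' n i : K))) := by
    intro P
    simp only [gc', gu', gm_mul]
    rw [gm_sum]
    congr 1
    funext n
    rw [map_sum]
    exact Finset.sum_congr rfl fun i _ => (map_mul φ _ _).symm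
  have hsum : ∀ P : Finset (Fin k), ∑ i ∈ P, gc i * gu i =
      gm (fun n => φ (∑ i ∈ P, c n i * (u n i : K))) := by
    intro P
    simp only [gc, gu, gm_mul]
    rw [gm_sum]
    congr 1
    funext n
    rw [map_sum]
    exact Finset.sum_congr rfl fun i _ => (map_mul φ _ _).symm
  have hne0 : ∑ i, gc' i * gu' i ≠ 0 := by
    rw [hsum', gm_ne_zero]
    exact Eventually.of_forall fun n => (map_ne_zero φ).2 (hne n)
  have hu0 : ∀ i, gu' i ≠ 0 := fun i => hS.ne _ (hgu' i)
  -- a class with nonzero sum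
  let st : Setoid (Fin k) :=
    { r := fun i j => gu' i / gu' j ∈ KK'
      iseqv := ⟨fun i => by rw [div_self (hu0 i)]; exact KK'.one_mem,
        fun {i j} hij => by
          have := KK'.inv_mem hij
          rwa [inv_div] at this,
        fun {i j l} hij hjl => by
          have h1 := KK'.mul_mem hij hjl
          have h2 : gu' i / gu' j * (gu' j / gu' l) = gu' i / gu' l := by
            have := hu0 j
            field_simp
          rwa [h2] at h1⟩ }
  have hclass : ∃ i0 : Fin k, ∑ i ∈ Finset.univ.filter (fun i => gu' i / gu' i0 ∈ KK'),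
      gc' i * gu' i ≠ 0 := by
    by_contra hall
    push Not at hall
    apply hne0
    rw [Finset.sum_partition st]
    refine Finset.sum_eq_zero fun q hq => ?_
    obtain ⟨i0, _, rfl⟩ := Finset.mem_image.1 hq
    rw [← hall i0]
    refine Finset.sum_congr ?_ fun _ _ => rfl
    ext i
    simp only [Finset.mem_filter, Finset.mem_univ, true_and]
    constructor
    · intro hi
      have h1 : st.r i i0 := Quotient.exact hi
      exact h1
    · intro hi
      exact Quotient.sound (s := st) (show st.r i i0 from hi)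
  obtain ⟨i0, hi0⟩ := hclass
  -- the relation between the blocks
  let P' : Finset (Fin k) := Finset.univ.filter (fun i => gu' i / gu' i0 ∈ KK')
  let P : Finset (Fin k) := Finset.univ.filter (fun i => gw * gu i / gu' i0 ∈ KK')
  let A : Fin k ⊕ Fin k → GQ := Sum.elim gc' (fun i => -(gf * gc i))
  let G' : Fin k ⊕ Fin k → GQ := Sum.elim gu' (fun i => gw * gu i)
  have hG' : ∀ i, G' i ∈ GU (im φ Γ) := by
    rintro (i | i)
    · exact hgu' i
    · exact hS.mul _ hgw _ (hgu i)
  have hkey := hS.cs (Fin k ⊕ Fin k) Finset.univ A G'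
    (fun j => if G' j / gu' i0 ∈ KK' then 1 else 0) (by
      rintro (i | i) _
      · exact hgc' i
      · exact KK'.neg_mem (KK'.mul_mem hgf (hgc i))) (fun i _ => hG' i) (by
      intro i _ j _ hij
      have hj0 : G' j ≠ 0 := hS.ne _ (hG' j)
      have hi0' : G' i ≠ 0 := hS.ne _ (hG' i)
      by_cases hj : G' j / gu' i0 ∈ KK'
      · have hi : G' i / gu' i0 ∈ KK' := by
          have h1 := KK'.mul_mem hij hj
          have h2 : G' i / G' j * (G' j / gu' i0) = G' i / gu' i0 := by
            have := hu0 i0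
            field_simp
          rwa [h2] at h1
        rw [if_pos hi, if_pos hj]
      · have hi : G' i / gu' i0 ∉ KK' := by
          intro hi
          apply hj
          have h1 := KK'.mul_mem (KK'.inv_mem hij) hi
          have h2 : (G' i / G' j)⁻¹ * (G' i / gu' i0) = G' j / gu' i0 := by
            have := hu0 i0
            field_simp
          rwa [h2] at h1
        rw [if_neg hi, if_neg hj]) (by
      rw [Fintype.sum_sum_type]
      simp only [A, G', Sum.elim_inl, Sum.elim_inr]
      have e1 : ∑ i, -(gf * gc i) * (gw * gu i) = - (gw * gf * ∑ i, gc i * gu i) := by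
        rw [Finset.mul_sum, ← Finset.sum_neg_distrib]
        refine Finset.sum_congr rfl fun i _ => ?_
        ring
      rw [e1, hsum', hsum]
      simp only [gw, gf]
      rw [gm_mul, gm_mul, ← sub_eq_add_neg, sub_eq_zero, gm_eq]
      refine Eventually.of_forall fun n => ?_
      rw [heq n, map_mul, map_mul])
  have hcoef := congrArg (fun p : Polynomial GQ => p.coeff 1) hkey
  simp only [Polynomial.finsetSum_coeff, Polynomial.coeff_C_mul, Polynomial.coeff_X_pow,
    Polynomial.coeff_zero] at hcoef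
  rw [Fintype.sum_sum_type] at hcoef
  simp only [A, G', Sum.elim_inl, Sum.elim_inr] at hcoef
  have hl : ∑ x, gc' x * gu' x * (if 1 = (if gu' x / gu' i0 ∈ KK' then 1 else 0) then (1 : GQ) else 0) =
      ∑ i ∈ P', gc' i * gu' i := by
    rw [Finset.sum_filter]
    refine Finset.sum_congr rfl fun x _ => ?_
    by_cases hx : gu' x / gu' i0 ∈ KK'
    · rw [if_pos hx, if_pos hx, if_pos rfl, mul_one]
    · rw [if_neg hx, if_neg hx, if_neg (by norm_num), mul_zero]
  have hr : ∑ x, -(gf * gc x) * (gw * gu x) *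
      (if 1 = (if gw * gu x / gu' i0 ∈ KK' then 1 else 0) then (1 : GQ) else 0) =
      - (gw * gf * ∑ i ∈ P, gc i * gu i) := by
    rw [Finset.sum_filter, Finset.mul_sum, ← Finset.sum_neg_distrib]
    refine Finset.sum_congr rfl fun x _ => ?_
    by_cases hx : gw * gu x / gu' i0 ∈ KK'
    · rw [if_pos hx, if_pos hx, if_pos rfl]
      ring
    · rw [if_neg hx, if_neg hx, if_neg (by norm_num)]
      ring
  have hcoef2 : ∑ i ∈ P', gc' i * gu' i + -(gw * gf * ∑ i ∈ P, gc i * gu i) = 0 := by
    rw [← hl, ← hr]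
    exact hcoef
  rw [← sub_eq_add_neg, sub_eq_zero] at hcoef2
  have hdiv : (∑ i ∈ P', gc' i * gu' i) / gu' i0 ∈ KK' := by
    rw [Finset.sum_div]
    refine KK'.sum_mem fun i hi => ?_
    rw [mul_div_assoc]
    exact KK'.mul_mem (hgc' i) (Finset.mem_filter.1 hi).2
  have hP'ne : ∑ i ∈ P', gc' i * gu' i ≠ 0 := hi0
  rw [hsum'] at hdiv hP'ne hcoef2
  rw [hsum] at hcoef2
  simp only [gw, gf] at hcoef2
  rw [gm_mul, gm_mul, gm_eq] at hcoef2
  rw [gm_ne_zero] at hP'ne
  have hdiv' : gm (fun n => φ ((∑ i ∈ P', c' n i * (u' n i : K)) / (u' n i0 : K))) ∈ KK' := by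
    have e : gm (fun n => φ ((∑ i ∈ P', c' n i * (u' n i : K)) / (u' n i0 : K))) =
        gm (fun n => φ (∑ i ∈ P', c' n i * (u' n i : K))) / gu' i0 := by
      simp only [gu']
      rw [gm_div]
      congr 1
      funext n
      exact map_div₀ φ _ _
    rw [e]
    exact hdiv
  have hbox := KK_LK φ hh _ hdiv'
  obtain ⟨n, h1, h2, h3⟩ := (hcoef2.and (hP'ne.and hbox)).exists
  refine absurd h3 (not_le.2 ?_)
  have h4 := hbad n P' P (by
    apply φ.injective
    rw [h1, map_mul, map_mul]) ((map_ne_zero φ).1 h2) (u' n i0) (hu' n i0)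
  push_cast at h4
  exact h4

end Pool.Agent.K3h74.NF
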