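import Mathlib
import Pool.Agent.K3h55.DU.Fin
import Pool.Agent.K3h74.SS.Sf

/-!
# The decomposition into long and short fibres, abstractly

This is the argument of `Pool.Agent.K3h55.DU.decomp` (helper55) with the multiplicative estimates as
hypotheses.
-/

set_option autoImplicit false

namespace Pool.Agent.K3h74.NF

open Finset Pool.Agent.TH551.SU Pool.Agent.TH539.MQ Pool.Agent.Y359.PE Pool.Agent.R849.RF
  Pool.Agent.K3h55.DU
open scoped Classical Pointwise

variable {s : ℕ}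

/-- few elements of `A'` in every coset of the group of units -/
def Few (b : Fin s → ℕ) (T : ℕ) (A' : Finset ℤ) : Prop :=
  ∀ a ∈ A', (A'.filter fun x : ℤ => IsSU b ((x : ℚ) / a)).card ≤ T

/-- the number of representations as a product of `J` elements -/
noncomputable def reps (J : ℕ) (A' : Finset ℤ) (v : ℤ) : ℝ :=
  (((Fintype.piFinset fun _ : Fin J => A').filter fun f => ∏ i, f i = v).card : ℝ)

set_option maxHeartbeats 4000000 in
theorem decompA (b : Fin s → ℕ) (hs : 1 ≤ s) (hb : ∀ v, (b v).Prime) (ε : ℝ) (hε : 0 < ε) (J : ℕ)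
    (hJ : 1 ≤ J) : ∃ m : ℕ, 1 ≤ m ∧ ∃ e : ℝ, 0 < e ∧ ∀ C2 C4 : ℝ, 0 < C2 → 0 < C4 →
      ∃ c : ℝ, 0 < c ∧ ∀ (A : Finset ℤ), A.Nonempty → (0 : ℤ) ∉ A →
      (∀ (T : ℕ) (A' : Finset ℤ), A' ⊆ A → Few b T A' →
        (A'.card : ℝ) ^ m ≤ (C2 * (A.card : ℝ) ^ e * T) ^ m * (pk m A').card) →
      ∃ A1 ⊆ A,
        (∀ X : Finset ℤ, X.Nonempty →
          c * ((A.card : ℝ) * X.card) ^ (-ε) * (A1.card * X.card) ≤ ((A1 + X).card : ℝ)) ∧
        (∀ X : Finset ℂ, X.Nonempty → (0 : ℂ) ∉ X →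
          c * ((A.card : ℝ) * X.card) ^ (-ε) * ((A \ A1).card * X.card) ≤
            ((AB X (A \ A1)).card : ℝ)) ∧
        ((∀ (T : ℕ) (A' : Finset ℤ), A' ⊆ A → Few b T A' → ∀ v : ℤ, v ≠ 0 →
          reps J A' v ≤ (C4 * (A.card : ℝ) ^ e * T) ^ J) →
          ∀ v : ℤ, v ≠ 0 → c * reps J (A \ A1) v ≤ (A.card : ℝ) ^ ε) := by
  have hJ0 : (1 : ℝ) ≤ J := by exact_mod_cast hJ
  obtain ⟨e, he⟩ : ∃ e : ℝ, e = min ε 1 / (4 * J) := ⟨_, rfl⟩
  have hmin0 : 0 < min ε 1 := lt_min hε one_pos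
  have he0 : 0 < e := by
    rw [he]
    positivity
  have heJ : 4 * J * e = min ε 1 := by
    rw [he]
    field_simp
  have heJ' : e ≤ J * e := by nlinarith
  have heε : 4 * e ≤ ε := by
    have := min_le_left ε 1
    nlinarith
  have he1 : e ≤ 1 := by
    have := min_le_right ε 1
    nlinarith
  have heJε : 2 * J * e ≤ ε := by
    have := min_le_left ε 1
    nlinarith
  obtain ⟨m, hm⟩ := exists_nat_ge (1 / e)
  have hm1 : 1 ≤ m := by
    have h1 : (0 : ℝ) < 1 / e := by positivity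
    have h2 : (0 : ℝ) < m := lt_of_lt_of_le h1 hm
    exact_mod_cast h2
  have hme : 1 / (m : ℝ) ≤ e := by
    have hm0 : (0 : ℝ) < m := by exact_mod_cast hm1
    rw [div_le_iff₀ hm0]
    rw [div_le_iff₀ he0] at hm
    linarith
  refine ⟨m, hm1, e, he0, fun C2 C4 hC2 hC4 => ?_⟩
  obtain ⟨c1, hc1, hadd⟩ := add_part s hs (fun i => (b i : ℚ))
    (fun i => by exact_mod_cast (hb i).pos) e he0 he1
  obtain ⟨K, hK⟩ : ∃ K : ℝ, K = 4 / e * Real.exp (6 / e) := ⟨_, rfl⟩
  have hK0 : 0 < K := by rw [hK]; positivity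
  obtain ⟨C3, hC3, hpl⟩ := polylog K e hK0.le he0 s
  refine ⟨min (min c1 (1 / (C2 * (2 * C3)))) (1 / (C4 * (2 * C3)) ^ J),
    lt_min (lt_min hc1 (by positivity)) (by positivity), ?_⟩
  intro A hA h0 hmul
  have hN1' : 1 ≤ A.card := hA.card_pos
  have hN1 : (1 : ℝ) ≤ A.card := by exact_mod_cast hN1'
  have hN0 : (0 : ℝ) < A.card := by linarith
  obtain ⟨M, hM⟩ : ∃ M : ℝ, M = (K * Real.log (2 * A.card)) ^ s := ⟨_, rfl⟩
  have hlog0 : 0 ≤ Real.log (2 * A.card) := Real.log_nonneg (by linarith)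
  have hM0 : 0 ≤ M := by rw [hM]; positivity
  have hMC : M ≤ C3 * (A.card : ℝ) ^ e := by
    rw [hM]
    refine le_trans (pow_le_pow_left₀ (by positivity) ?_ s) (hpl A.card hN1')
    linarith
  obtain ⟨A1, hA1⟩ : ∃ A1 : Finset ℤ, A1 = A.filter fun a => M ≤ ((fib b A a).card : ℝ) := ⟨_, rfl⟩
  have hA1A : A1 ⊆ A := by rw [hA1]; exact filter_subset _ _
  have hfibA1 : ∀ a ∈ A1, fib b A1 a = fib b A a := by
    intro a ha
    ext x
    constructor
    · intro hx
      exact mem_filter.2 ⟨hA1A (mem_filter.1 hx).1, (mem_filter.1 hx).2⟩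
    · intro hx
      refine mem_filter.2 ⟨?_, (mem_filter.1 hx).2⟩
      rw [hA1, mem_filter] at ha ⊢
      refine ⟨(mem_filter.1 hx).1, ?_⟩
      rw [fib_eq hb hx]
      exact ha.2
  have hA2A : A \ A1 ⊆ A := sdiff_subset
  have hA2T : ∀ a ∈ A \ A1, ((fib b A a).card : ℝ) ≤ M := by
    intro a ha
    rw [mem_sdiff] at ha
    by_contra hcon
    push Not at hcon
    exact ha.2 (by rw [hA1]; exact mem_filter.2 ⟨ha.1, hcon.le⟩)
  have hfew : Few b ⌊2 * M⌋₊ (A \ A1) := by
    intro a ha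
    refine Nat.le_floor ?_
    have ha0 : (a : ℚ) ≠ 0 := by
      have : a ≠ 0 := fun h => h0 (h ▸ hA2A ha)
      exact_mod_cast this
    have h1 := coset_card hb A (A \ A1) hA2A M hA2T hM0 1 one_ne_zero (a : ℚ)
    refine le_trans ?_ h1
    have h2 : ((A \ A1).filter fun x : ℤ => IsSU b ((x : ℚ) / a)) ⊆
        (A \ A1).filter fun x : ℤ => ∃ t, IsSU b t ∧ (1 : ℚ) * x = t * a := by
      intro x hx
      obtain ⟨hx1, hx2⟩ := mem_filter.1 hx
      refine mem_filter.2 ⟨hx1, _, hx2, ?_⟩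
      rw [div_mul_cancel₀ _ ha0, one_mul]
    exact_mod_cast card_le_card h2
  have hfl : ((⌊2 * M⌋₊ : ℕ) : ℝ) ≤ 2 * M := Nat.floor_le (by linarith)
  refine ⟨A1, hA1A, ?_, ?_, ?_⟩
  · intro X hX
    have h1 := hadd A.card A1 hN1' (card_le_card hA1A) (fun a ha => by
      rw [← hK, ← hM]
      have h2 : M ≤ ((fib b A a).card : ℝ) := by
        rw [hA1, mem_filter] at ha
        exact ha.2
      rw [← hfibA1 a ha] at h2
      exact h2) X hX
    refine le_trans ?_ h1
    have hX1 : (1 : ℝ) ≤ X.card := by exact_mod_cast hX.card_pos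
    have hNX : 1 ≤ (A.card : ℝ) * X.card := one_le_mul_of_one_le_of_one_le hN1 hX1
    have h3 : ((A.card : ℝ) * X.card) ^ (-ε) ≤ ((A.card : ℝ) * X.card) ^ (-(2 * e)) :=
      Real.rpow_le_rpow_of_exponent_le hNX (by linarith)
    have h4 : (0 : ℝ) ≤ (A1.card : ℝ) * X.card := by positivity
    exact mul_le_mul_of_nonneg_right
      (mul_le_mul ((min_le_left _ _).trans (min_le_left _ _)) h3 (by positivity) hc1.le) h4
  · intro X hX hX0
    have hX1 : (1 : ℝ) ≤ X.card := by exact_mod_cast hX.card_pos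
    have hX00 : (0 : ℝ) < X.card := by linarith
    have h1 := hmul ⌊2 * M⌋₊ (A \ A1) hA2A hfew
    obtain ⟨A2, hA2⟩ : ∃ A2 : Finset ℤ, A2 = A \ A1 := ⟨_, rfl⟩
    rw [← hA2] at h1 ⊢
    have hA2A' : A2 ⊆ A := by rw [hA2]; exact sdiff_subset
    have h02 : (0 : ℤ) ∉ A2 := fun h => h0 (hA2A' h)
    have h2 := plun X hX hX0 A2 h02 m
    obtain ⟨Q, hQ⟩ : ∃ Q : ℝ, Q = C2 * (2 * C3) * ((A.card : ℝ) ^ e * (A.card : ℝ) ^ e) := ⟨_, rfl⟩
    have hQ1 : C2 * (A.card : ℝ) ^ e * ((⌊2 * M⌋₊ : ℕ) : ℝ) ≤ Q := by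
      calc C2 * (A.card : ℝ) ^ e * ((⌊2 * M⌋₊ : ℕ) : ℝ)
          ≤ C2 * (A.card : ℝ) ^ e * (2 * (C3 * (A.card : ℝ) ^ e)) := by
            refine mul_le_mul_of_nonneg_left ?_ (by positivity)
            linarith
        _ = Q := by rw [hQ]; ring
    have hQ0 : 0 < Q := by rw [hQ]; positivity
    have h3 : (A2.card : ℝ) ^ m ≤ Q ^ m * (pk m A2).card := by
      refine h1.trans (mul_le_mul_of_nonneg_right ?_ (by positivity))
      exact pow_le_pow_left₀ (by positivity) hQ1 m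
    obtain ⟨Z, hZ⟩ : ∃ Z : ℝ, Z = ((AB X A2).card : ℝ) := ⟨_, rfl⟩
    have hZ0 : 0 ≤ Z := by rw [hZ]; positivity
    rw [← hZ] at h2 ⊢
    have hroot : (((X.card : ℝ) ^ (1 / (m : ℝ)))) ^ m = X.card := by
      rw [← Real.rpow_natCast, ← Real.rpow_mul hX00.le]
      have : (m : ℝ) ≠ 0 := by positivity
      rw [one_div_mul_cancel this, Real.rpow_one]
    have h4 : ((A2.card : ℝ) * X.card) ^ m ≤ (Q * (Z * (X.card : ℝ) ^ (1 / (m : ℝ)))) ^ m := by
      rw [mul_pow, mul_pow, mul_pow Z, hroot]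
      calc (A2.card : ℝ) ^ m * (X.card : ℝ) ^ m
          ≤ Q ^ m * (pk m A2).card * (X.card : ℝ) ^ m :=
            mul_le_mul_of_nonneg_right h3 (by positivity)
        _ = Q ^ m * ((pk m A2).card * (X.card : ℝ) ^ m) := by ring
        _ ≤ Q ^ m * (Z ^ m * X.card) := mul_le_mul_of_nonneg_left h2 (by positivity)
    have h5 : (A2.card : ℝ) * X.card ≤ Q * (Z * (X.card : ℝ) ^ (1 / (m : ℝ))) :=
      le_of_pow_le_pow_left₀ (by omega) (by positivity) h4
    have h6 : (X.card : ℝ) ^ (1 / (m : ℝ)) ≤ (X.card : ℝ) ^ e :=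
      Real.rpow_le_rpow_of_exponent_le hX1 hme
    have hNX : 1 ≤ (A.card : ℝ) * X.card := one_le_mul_of_one_le_of_one_le hN1 hX1
    have hNX0 : 0 < (A.card : ℝ) * X.card := by linarith
    have h7 : (A2.card : ℝ) * X.card ≤
        C2 * (2 * C3) * ((A.card : ℝ) * X.card) ^ ε * Z := by
      refine h5.trans ?_
      have h8 : (A.card : ℝ) ^ e * (A.card : ℝ) ^ e * (X.card : ℝ) ^ (1 / (m : ℝ)) ≤
          ((A.card : ℝ) * X.card) ^ ε := by
        have h9 : (A.card : ℝ) ^ e ≤ ((A.card : ℝ) * X.card) ^ e :=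
          Real.rpow_le_rpow hN0.le (by nlinarith) he0.le
        have h10 : (X.card : ℝ) ^ e ≤ ((A.card : ℝ) * X.card) ^ e :=
          Real.rpow_le_rpow hX00.le (by nlinarith) he0.le
        calc (A.card : ℝ) ^ e * (A.card : ℝ) ^ e * (X.card : ℝ) ^ (1 / (m : ℝ))
            ≤ ((A.card : ℝ) * X.card) ^ e * ((A.card : ℝ) * X.card) ^ e *
                ((A.card : ℝ) * X.card) ^ e := by
              refine mul_le_mul (mul_le_mul h9 h9 (by positivity) (by positivity))
                (h6.trans h10) (by positivity) (by positivity)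
          _ = ((A.card : ℝ) * X.card) ^ (e + e + e) := by
              rw [Real.rpow_add hNX0, Real.rpow_add hNX0]
          _ ≤ ((A.card : ℝ) * X.card) ^ ε :=
              Real.rpow_le_rpow_of_exponent_le hNX (by linarith)
      calc Q * (Z * (X.card : ℝ) ^ (1 / (m : ℝ)))
          = C2 * (2 * C3) * ((A.card : ℝ) ^ e * (A.card : ℝ) ^ e *
              (X.card : ℝ) ^ (1 / (m : ℝ))) * Z := by rw [hQ]; ring
        _ ≤ C2 * (2 * C3) * ((A.card : ℝ) * X.card) ^ ε * Z := by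
            refine mul_le_mul_of_nonneg_right ?_ hZ0
            exact mul_le_mul_of_nonneg_left h8 (by positivity)
    have hpe : ((A.card : ℝ) * X.card) ^ (-ε) * ((A.card : ℝ) * X.card) ^ ε = 1 := by
      rw [← Real.rpow_add hNX0]
      simp
    have hp0 : 0 ≤ ((A.card : ℝ) * X.card) ^ (-ε) := by positivity
    calc min (min c1 (1 / (C2 * (2 * C3)))) (1 / (C4 * (2 * C3)) ^ J) *
          ((A.card : ℝ) * X.card) ^ (-ε) * (A2.card * X.card)
        ≤ 1 / (C2 * (2 * C3)) * ((A.card : ℝ) * X.card) ^ (-ε) * (A2.card * X.card) :=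
          mul_le_mul_of_nonneg_right
            (mul_le_mul_of_nonneg_right ((min_le_left _ _).trans (min_le_right _ _)) hp0)
            (by positivity)
      _ ≤ 1 / (C2 * (2 * C3)) * ((A.card : ℝ) * X.card) ^ (-ε) *
            (C2 * (2 * C3) * ((A.card : ℝ) * X.card) ^ ε * Z) :=
          mul_le_mul_of_nonneg_left h7 (by positivity)
      _ = (((A.card : ℝ) * X.card) ^ (-ε) * ((A.card : ℝ) * X.card) ^ ε) * Z := by
          field_simp
      _ = Z := by rw [hpe, one_mul]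
  · intro hrep v hv
    have h1 := hrep ⌊2 * M⌋₊ (A \ A1) hA2A hfew v hv
    have hQ1 : C4 * (A.card : ℝ) ^ e * ((⌊2 * M⌋₊ : ℕ) : ℝ) ≤
        C4 * (2 * C3) * ((A.card : ℝ) ^ (2 * e)) := by
      calc C4 * (A.card : ℝ) ^ e * ((⌊2 * M⌋₊ : ℕ) : ℝ)
          ≤ C4 * (A.card : ℝ) ^ e * (2 * (C3 * (A.card : ℝ) ^ e)) := by
            refine mul_le_mul_of_nonneg_left ?_ (by positivity)
            linarith
        _ = C4 * (2 * C3) * ((A.card : ℝ) ^ (2 * e)) := by
            rw [two_mul e, Real.rpow_add hN0]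
            ring
    have h2 : (C4 * (A.card : ℝ) ^ e * ((⌊2 * M⌋₊ : ℕ) : ℝ)) ^ J ≤
        (C4 * (2 * C3)) ^ J * (A.card : ℝ) ^ ε := by
      refine (pow_le_pow_left₀ (by positivity) hQ1 J).trans ?_
      rw [mul_pow]
      refine mul_le_mul_of_nonneg_left ?_ (by positivity)
      rw [← Real.rpow_natCast, ← Real.rpow_mul hN0.le]
      exact Real.rpow_le_rpow_of_exponent_le hN1 (by linarith)
    have h3 := h1.trans h2
    have hP : 0 < (C4 * (2 * C3)) ^ J := by positivity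
    have hr0 : 0 ≤ reps J (A \ A1) v := by unfold reps; positivity
    calc min (min c1 (1 / (C2 * (2 * C3)))) (1 / (C4 * (2 * C3)) ^ J) * reps J (A \ A1) v
        ≤ 1 / (C4 * (2 * C3)) ^ J * reps J (A \ A1) v :=
          mul_le_mul_of_nonneg_right (min_le_right _ _) hr0
      _ ≤ 1 / (C4 * (2 * C3)) ^ J * ((C4 * (2 * C3)) ^ J * (A.card : ℝ) ^ ε) :=
          mul_le_mul_of_nonneg_left h3 (by positivity)
      _ = (A.card : ℝ) ^ ε := by field_simp

/-- the set of the sums or of the products is large if there is such a decomposition -/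
theorem maxA (c ε : ℝ) (hc : 0 < c) (hc1 : c ≤ 1) (hε : 0 < ε) (m : ℕ) (A A1 : Finset ℤ)
    (hA : A.Nonempty) (hA1 : A1 ⊆ A)
    (hadd : ∀ X : Finset ℤ, X.Nonempty →
          c * ((A.card : ℝ) * X.card) ^ (-ε) * (A1.card * X.card) ≤ ((A1 + X).card : ℝ))
    (hmul : ∀ X : Finset ℂ, X.Nonempty → (0 : ℂ) ∉ X →
          c * ((A.card : ℝ) * X.card) ^ (-ε) * ((A \ A1).card * X.card) ≤
            ((AB X (A \ A1)).card : ℝ)) (h0 : (0 : ℤ) ∉ A \ A1) :
    (c / 2) ^ m * (A.card : ℝ) ^ ((m : ℝ) - ε * m ^ 2) ≤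
      max ((sk m A).card : ℝ) ((pk m A).card : ℝ) := by
  obtain ⟨n, hn⟩ : ∃ n : ℝ, n = A.card := ⟨_, rfl⟩
  rw [← hn] at hadd hmul ⊢
  have hn1 : 1 ≤ n := by
    rw [hn]
    exact_mod_cast hA.card_pos
  have hn0 : 0 < n := by linarith
  have hmax : c ^ m * n ^ (-(ε * (m : ℝ) ^ 2)) * (n / 2) ^ m ≤
      max ((sk m A).card : ℝ) ((pk m A).card : ℝ) := by
    rcases le_total (n / 2) (A1.card : ℝ) with hcase | hcase
    · refine le_trans ?_ (le_max_left _ _)
      have hA1ne : A1.Nonempty := by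
        rw [← card_pos]
        have : (0 : ℝ) < A1.card := by linarith
        exact_mod_cast this
      have hA1n : (A1.card : ℝ) ≤ n := by
        rw [hn]
        exact_mod_cast card_le_card hA1
      have h1 := iterate (f := fun j => ((sk j A1).card : ℝ)) hc hn1
        (Nat.cast_nonneg A1.card) hε
        (by exact_mod_cast (sk_nonempty hA1ne).card_pos)
        (fun j => ⟨by exact_mod_cast (sk_nonempty hA1ne).card_pos, by
          have h2 : ((sk j A1).card : ℝ) ≤ (A1.card : ℝ) ^ j := by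
            exact_mod_cast card_sk_le j A1
          exact h2.trans (pow_le_pow_left₀ (by positivity) hA1n j)⟩)
        (fun j => (hadd (sk j A1) (sk_nonempty hA1ne)).trans (by
          exact_mod_cast card_le_card (add_sk j A1))) m
      refine le_trans ?_ (h1.trans ?_)
      · exact mul_le_mul_of_nonneg_left (pow_le_pow_left₀ (by positivity) hcase m)
          (by positivity)
      · exact_mod_cast card_le_card (sk_mono hA1)
    · refine le_trans ?_ (le_max_right _ _)
      obtain ⟨A3, hA3⟩ : ∃ A3 : Finset ℤ, A3 = A \ A1 := ⟨_, rfl⟩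
      rw [← hA3] at hmul h0
      have hA3A : A3 ⊆ A := by rw [hA3]; exact sdiff_subset
      have hA3c : n / 2 ≤ (A3.card : ℝ) := by
        have h1 : (A3.card : ℝ) = n - A1.card := by
          rw [hA3, card_sdiff_of_subset hA1, Nat.cast_sub (card_le_card hA1), hn]
        rw [h1]
        linarith
      have hA3ne : A3.Nonempty := by
        rw [← card_pos]
        have : (0 : ℝ) < A3.card := by linarith
        exact_mod_cast this
      have hpk0 : ∀ j, (0 : ℤ) ∉ pk j A3 := by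
        intro j h
        obtain ⟨f, hf, hf0⟩ := mem_image.1 h
        rw [Fintype.mem_piFinset] at hf
        obtain ⟨i, _, hi⟩ := prod_eq_zero_iff.1 hf0
        exact h0 (hi ▸ hf i)
      have hA3n : (A3.card : ℝ) ≤ n := by
        rw [hn]
        exact_mod_cast card_le_card hA3A
      have h1 := iterate (f := fun j => ((pk j A3).card : ℝ)) hc hn1
        (Nat.cast_nonneg A3.card) hε
        (by exact_mod_cast (pk_nonempty hA3ne).card_pos)
        (fun j => ⟨by exact_mod_cast (pk_nonempty hA3ne).card_pos, by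
          have h2 : ((pk j A3).card : ℝ) ≤ (A3.card : ℝ) ^ j := by
            exact_mod_cast card_pk_le' j A3
          exact h2.trans (pow_le_pow_left₀ (by positivity) hA3n j)⟩)
        (fun j => by
          have h2 := hmul (ci (pk j A3)) ((pk_nonempty hA3ne).image _) (ci_zero (hpk0 j))
          rw [card_ci] at h2
          refine h2.trans ?_
          have h3 := card_le_card (AB_pk j A3)
          rw [card_ci] at h3
          exact_mod_cast h3) m
      refine le_trans ?_ (h1.trans ?_)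
      · exact mul_le_mul_of_nonneg_left (pow_le_pow_left₀ (by positivity) hA3c m)
          (by positivity)
      · exact_mod_cast card_le_card (pk_mono hA3A)
  refine le_trans (le_of_eq ?_) hmax
  rw [div_pow, div_pow, sub_eq_neg_add, Real.rpow_add hn0, Real.rpow_natCast]
  ring

end Pool.Agent.K3h74.NF
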