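import Mathlib
import Pool.Agent.K3h74.NF.Classes
import Pool.Agent.K3h74.SS.Germ
import Pool.Agent.Y215.SK.Hts

/-!
# Norms of numbers of small height and of units
-/

set_option autoImplicit false
set_option linter.unusedSectionVars false

namespace Pool.Agent.K3h74.NF

open Height NumberField Pool.Agent.TH551.SU Pool.Agent.TH539.MQ Pool.Agent.K3h74.SS Module

variable {K : Type} [Field K] [NumberField K]

/-- the norm of a number of small height is a rational number of small height -/
theorem norm_box (β : K) (B : ℝ) (hB : logHeight₁ β ≤ B) :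
    Algebra.norm ℚ β ∈ box ⌊Real.exp (2 * finrank ℚ K * B)⌋₊ := by
  set d : ℕ := finrank ℚ K with hd
  obtain ⟨n, hn0, hn, hint⟩ := exists_nat_le_mulHeight₁ β
  have hB0 : 0 ≤ B := (zero_le_logHeight₁ β).trans hB
  have hHt : mulHeight₁ β ≤ Real.exp B := by
    rw [logHeight₁_eq_log_mulHeight₁] at hB
    exact (Real.log_le_iff_le_exp (mulHeight₁_pos β)).1 hB
  have hnB : (n : ℝ) ≤ Real.exp B := hn.trans hHt
  -- the integral norm
  obtain ⟨z, hz⟩ : ∃ z : ℤ, (z : ℚ) = Algebra.norm ℚ ((n : K) * β) := by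
    have h1 : IsIntegral ℤ (Algebra.norm ℚ ((n : K) * β)) := Algebra.isIntegral_norm ℚ hint
    obtain ⟨z, hz⟩ := IsIntegrallyClosed.isIntegral_iff.1 h1
    exact ⟨z, by simpa using hz⟩
  have hnn : Algebra.norm ℚ ((n : K) * β) = (n : ℚ) ^ d * Algebra.norm ℚ β := by
    rw [map_mul]
    congr 1
    have h1 : (n : K) = algebraMap ℚ K (n : ℚ) := by simp
    rw [h1, Algebra.norm_algebraMap]
  have hzabs : |(z : ℝ)| ≤ Real.exp (2 * d * B) := by
    have h1 := InfinitePlace.prod_eq_abs_norm ((n : K) * β)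
    rw [← hz] at h1
    push_cast at h1
    rw [← h1]
    calc ∏ w : InfinitePlace K, w ((n : K) * β) ^ w.mult ≤
        ∏ w : InfinitePlace K, (Real.exp (2 * B)) ^ w.mult := by
          refine Finset.prod_le_prod (fun w _ => pow_nonneg (apply_nonneg _ _) _) fun w _ => ?_
          refine pow_le_pow_left₀ (apply_nonneg _ _) ?_ _
          rw [map_mul]
          have h2 : w (n : K) ≤ Real.exp B := by
            refine le_trans ?_ hnB
            rw [← w.norm_embedding_eq]
            simp
          have h3 : w β ≤ Real.exp B :=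
            (Pool.Agent.Y215.SK.place_le_height w β).trans (Real.exp_le_exp.2 hB)
          calc w (n : K) * w β ≤ Real.exp B * Real.exp B :=
                mul_le_mul h2 h3 (apply_nonneg _ _) (Real.exp_pos _).le
            _ = Real.exp (2 * B) := by rw [← Real.exp_add]; ring_nf
      _ = Real.exp (2 * d * B) := by
          rw [Finset.prod_pow_eq_pow_sum, InfinitePlace.sum_mult_eq, ← Real.exp_nat_mul]
          congr 1
          rw [← hd]
          ring
  have hden : (((n ^ d : ℕ) : ℕ) : ℝ) ≤ Real.exp (2 * d * B) := by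
    push_cast
    calc (n : ℝ) ^ d ≤ (Real.exp B) ^ d := pow_le_pow_left₀ (Nat.cast_nonneg _) hnB _
      _ = Real.exp (d * B) := by rw [← Real.exp_nat_mul]
      _ ≤ Real.exp (2 * d * B) := by
          refine Real.exp_le_exp.2 ?_
          have : (0 : ℝ) ≤ d * B := by positivity
          linarith
  have e : Algebra.norm ℚ β = (z : ℚ) / ((n ^ d : ℕ) : ℚ) := by
    have h1 : ((n ^ d : ℕ) : ℚ) ≠ 0 := by exact_mod_cast pow_ne_zero _ hn0
    rw [eq_div_iff h1, hz, hnn]
    push_cast
    ring
  rw [e]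
  refine mem_box' z (n ^ d) ?_ (Nat.pow_pos (Nat.pos_of_ne_zero hn0)) (Nat.le_floor hden)
  have h1 : ((z.natAbs : ℕ) : ℝ) ≤ Real.exp (2 * d * B) := by
    rw [Nat.cast_natAbs]
    push_cast
    exact hzabs
  have h2 := Nat.le_floor h1
  rw [Int.abs_eq_natAbs]
  exact_mod_cast h2

section
variable {s : ℕ} (b : Fin s → ℕ) (hb : ∀ v, (b v).Prime)

theorem isSU_prime (i : Fin s) : IsSU b (b i : ℚ) := by
  classical
  refine ⟨1, fun j => if j = i then 1 else 0, Or.inl rfl, ?_⟩
  rw [Finset.prod_eq_single i]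
  · simp
  · intro j _ hj
    simp [hj]
  · intro h
    exact absurd (Finset.mem_univ _) h

include hb in
theorem isSU_pow {x : ℚ} (hx : IsSU b x) (n : ℕ) : IsSU b (x ^ n) := by
  induction n with
  | zero => simpa using isSU_one b
  | succ n ih =>
    rw [pow_succ]
    exact isSU_mul b hb ih hx

include hb in
theorem isSU_nat (n : ℕ) (hn : n ≠ 0) (h : ∀ p ∈ n.primeFactors, ∃ i, b i = p) :
    IsSU b (n : ℚ) := by
  have e : (n : ℚ) = ∏ p ∈ n.primeFactors, (p : ℚ) ^ n.factorization p := by
    conv_lhs => rw [← Nat.prod_factorization_pow_eq_self hn]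
    rw [Finsupp.prod]
    push_cast
    rfl
  rw [e]
  refine Finset.prod_induction _ (IsSU b) (fun x y hx hy => isSU_mul b hb hx hy) (isSU_one b) ?_
  intro p hp
  obtain ⟨i, rfl⟩ := h p hp
  exact isSU_pow b hb (isSU_prime b i) _

include hb in
theorem isSU_rat (x : ℚ) (hx : x ≠ 0)
    (h : ∀ p ∈ x.num.natAbs.primeFactors ∪ x.den.primeFactors, ∃ i, b i = p) : IsSU b x := by
  have h1 := isSU_nat b hb x.num.natAbs (Int.natAbs_pos.2 (Rat.num_ne_zero.2 hx)).ne'
    fun p hp => h p (Finset.mem_union_left _ hp)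
  have h2 := isSU_nat b hb x.den x.den_nz fun p hp => h p (Finset.mem_union_right _ hp)
  have h3 : IsSU b (x.num : ℚ) := by
    rcases Int.natAbs_eq x.num with h | h
    · have e : (x.num : ℚ) = ((x.num.natAbs : ℕ) : ℚ) := by
        conv_lhs => rw [h]
        exact Int.cast_natCast _
      rw [e]
      exact h1
    · have e : (x.num : ℚ) = -1 * ((x.num.natAbs : ℕ) : ℚ) := by
        conv_lhs => rw [h]
        rw [Int.cast_neg, Int.cast_natCast, neg_one_mul]
      rw [e]
      have h4 : IsSU b (-1 : ℚ) := ⟨-1, 0, Or.inr rfl, by simp⟩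
      exact isSU_mul b hb h4 h1
  have h4 := isSU_div b hb h3 h2
  rwa [Rat.num_div_den] at h4

end

/-- the norms of the elements of a finitely generated group are units outside finitely many primes -/
theorem exists_primes (Γ : Subgroup Kˣ) (hΓ : Γ.FG) :
    ∃ P : Finset ℕ, 2 ∈ P ∧ (∀ p ∈ P, p.Prime) ∧
      ∀ (s : ℕ) (b : Fin s → ℕ), (∀ v, (b v).Prime) → (∀ p ∈ P, ∃ i, b i = p) →
        ∀ u ∈ Γ, IsSU b (Algebra.norm ℚ (u : K)) := by
  classical
  obtain ⟨S, hS⟩ := hΓ
  let nm : Kˣ → ℚ := fun u => Algebra.norm ℚ (u : K)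
  have hnm : ∀ u, nm u ≠ 0 := fun u => Algebra.norm_ne_zero_iff.2 u.ne_zero
  refine ⟨insert 2 (S.biUnion fun u => (nm u).num.natAbs.primeFactors ∪ (nm u).den.primeFactors),
    Finset.mem_insert_self _ _, ?_, ?_⟩
  · intro p hp
    rcases Finset.mem_insert.1 hp with rfl | hp
    · exact Nat.prime_two
    · obtain ⟨u, _, hu⟩ := Finset.mem_biUnion.1 hp
      rcases Finset.mem_union.1 hu with hu | hu
      · exact Nat.prime_of_mem_primeFactors hu
      · exact Nat.prime_of_mem_primeFactors hu
  · intro s b hb hP u hu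
    rw [← hS] at hu
    induction hu using Subgroup.closure_induction with
    | mem u hu =>
      refine isSU_rat b hb (nm u) (hnm u) fun p hp => hP p ?_
      exact Finset.mem_insert_of_mem (Finset.mem_biUnion.2 ⟨u, hu, hp⟩)
    | one =>
      rw [Units.val_one, map_one]
      exact isSU_one b
    | mul x y _ _ hx hy =>
      rw [Units.val_mul, map_mul]
      exact isSU_mul b hb hx hy
    | inv x _ hx =>
      have h1 : Algebra.norm ℚ ((x⁻¹ : Kˣ) : K) = (Algebra.norm ℚ (x : K))⁻¹ := by
        have h2 : Algebra.norm ℚ ((x⁻¹ : Kˣ) : K) * Algebra.norm ℚ (x : K) = 1 := by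
          rw [← map_mul, Units.inv_mul, map_one]
        exact eq_inv_of_mul_eq_one_left h2
      rw [h1]
      exact isSU_inv b hx

end Pool.Agent.K3h74.NF
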