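import Mathlib
import Pool.Agent.K3h74.NF.Blocks
import Pool.Agent.K3h74.NF.Norm
import Pool.Agent.K3h74.NF.Abs

/-!
# Products of sets of rational numbers which are short sums over a number field
-/

set_option autoImplicit false
set_option linter.unusedSectionVars false

open Finset
open scoped Pointwise

namespace Pool.Agent.K3h74.NF

open Height NumberField Pool.Agent.TH551.SU Pool.Agent.TH539.MQ Pool.Agent.K3h74.SS Module

variable {K : Type} [Field K] [NumberField K]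

theorem norm_rat (x : ℚ) : Algebra.norm ℚ (x : K) = x ^ finrank ℚ K := by
  have h1 : (x : K) = algebraMap ℚ K x := by simp
  rw [h1, Algebra.norm_algebraMap]

set_option maxHeartbeats 4000000 in
open Classical in
/-- products of two sets of rational numbers, the first of which has short fibres -/
theorem prod_K (Γ : Subgroup Kˣ) (hΓ : Γ.FG) (k : ℕ) {s : ℕ} (b : Fin s → ℕ)
    (hb : ∀ v, (b v).Prime) (hbi : Function.Injective b)
    (hbΓ : ∀ u ∈ Γ, IsSU b (Algebra.norm ℚ (u : K))) :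
    ∃ C M : ℕ, ∀ (h : ℝ) (T : ℕ) (A B : Finset ℚ) (q q' : K), 0 ≤ h → q ≠ 0 → q' ≠ 0 →
      (∀ a ∈ A, a ≠ 0 ∧ ShK Γ k h (q * (a : K))) → (∀ y ∈ B, y ≠ 0 ∧ ShK Γ k h (q' * (y : K))) →
      (∀ a ∈ A, (A.filter fun x => IsSU b (x / a)).card ≤ T) →
      A.card * B.card ≤ C * tau (⌊Real.exp (C * (1 + h))⌋₊ * ⌊Real.exp (C * (1 + h))⌋₊) ^ M * T *
        (A * B).card := by
  obtain ⟨C1, hC1⟩ := classesK Γ hΓ k
  obtain ⟨C2, hC2⟩ := blocksK Γ hΓ k C1
  set d : ℕ := finrank ℚ K with hd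
  have hd0 : d ≠ 0 := (finrank_pos (R := ℚ) (M := K)).ne'
  set m1 : ℕ := Fintype.card (Finset (Fin k)) with hm1
  refine ⟨C1 * m1 ^ 4 + 2 * d * C2, 6 * Fintype.card (Finset (Fin k) × Finset (Fin k)) + 2, ?_⟩
  intro h T A B q q' hh hq hq' hA hB hT
  set H : ℕ := ⌊Real.exp (2 * d * (C2 * (1 + h)))⌋₊ with hH
  have hexp1 : (1 : ℝ) ≤ Real.exp (2 * d * (C2 * (1 + h))) := Real.one_le_exp (by positivity)
  have hH1 : 1 ≤ H := Nat.le_floor (by exact_mod_cast hexp1)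
  have one_box : (1 : ℚ) ∈ box H := by
    refine mem_box ?_ ?_
    · simpa using (by exact_mod_cast hH1 : (1 : ℝ) ≤ (H : ℝ))
    · simpa using (by exact_mod_cast hH1 : (1 : ℝ) ≤ (H : ℝ))
  -- representations
  have hrep : ∀ x : K, ShK Γ k h x → ∃ (c : Fin k → K) (u : Fin k → Kˣ),
      (∀ j, logHeight₁ (c j) ≤ h) ∧ (∀ j, u j ∈ Γ) ∧ x = ∑ j, c j * (u j : K) := fun x hx => hx
  choose! c u hc hu hcu using hrep
  let pt : K → Finset (Fin k) → K := fun x P => ∑ i ∈ P, c x i * (u x i : K)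
  let lab : K → Finset (Fin k) → ℚ := fun x P =>
    if pt x P ≠ 0 ∧ sf b (Algebra.norm ℚ (pt x P)) ∈ box H then sf b (Algebra.norm ℚ (pt x P)) else 1
  have hlab0 : ∀ x P, 0 < lab x P := by
    intro x P
    simp only [lab]
    split_ifs with h1
    · exact sf_pos b hb (Algebra.norm_ne_zero_iff.2 h1.1)
    · exact one_pos
  have hlabbox : ∀ x P, lab x P ∈ box H := by
    intro x P
    simp only [lab]
    split_ifs with h1
    · exact h1.2
    · exact one_box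
  have sfb : ∀ (z : K) (v0 : Kˣ), z ≠ 0 → v0 ∈ Γ → logHeight₁ (z / (v0 : K)) ≤ C2 * (1 + h) →
      sf b (Algebra.norm ℚ z) ∈ box H := by
    intro z v0 hz hv0 hzv
    have h1 := norm_box (z / (v0 : K)) _ hzv
    have h2 : z / (v0 : K) ≠ 0 := div_ne_zero hz v0.ne_zero
    have h3 := sf_box b hb hbi h1 (Algebra.norm_ne_zero_iff.2 h2)
    have h4 : Algebra.norm ℚ z = Algebra.norm ℚ (z / (v0 : K)) * Algebra.norm ℚ (v0 : K) := by
      rw [← map_mul, div_mul_cancel₀ _ v0.ne_zero]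
    rw [h4, sf_mul b hb, sf_isSU b hb hbi (hbΓ v0 hv0), mul_one]
    exact h3
  have hkey : ∀ N : ℚ, N ≠ 0 → ∃ (Y : Finset ℚ) (R : ℚ → Finset (Fin k) → Finset (Fin k) → ℚ)
      (S : ℚ → Finset (Fin k) → ℚ), Y.card ≤ C1 ∧ ∀ x ∈ A, N / x ∈ B → ∃ y ∈ Y,
        ∃ P P' Q Q' : Finset (Fin k), lab (q * (x : K)) P' * lab (q' * ((N / x : ℚ) : K)) Q' =
          R y P Q ∧ sf b x ^ d = lab (q * (x : K)) P' * S y P := by
    intro N hN
    have hinj : Function.Injective (fun x : ℚ => q * (x : K)) := by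
      intro x y hxy
      have h1 : (x : K) = y := mul_left_cancel₀ hq hxy
      exact_mod_cast h1
    set X : Finset K := (A.filter fun x => N / x ∈ B).image fun x : ℚ => q * (x : K) with hX
    have hXmem : ∀ z ∈ X, ∃ x ∈ A, N / x ∈ B ∧ z = q * (x : K) := by
      intro z hz
      obtain ⟨x, hx, rfl⟩ := Finset.mem_image.1 hz
      exact ⟨x, (Finset.mem_filter.1 hx).1, (Finset.mem_filter.1 hx).2, rfl⟩
    have hdiv : ∀ x : ℚ, x ≠ 0 → (q * q' * (N : K)) / (q * (x : K)) = q' * ((N / x : ℚ) : K) := by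
      intro x hx
      have h1 : (x : K) ≠ 0 := by exact_mod_cast hx
      push_cast
      field_simp
    obtain ⟨Y', hY'X, hY'card, hY'⟩ := hC1 h hh (q * q' * (N : K))
      (mul_ne_zero (mul_ne_zero hq hq') (by exact_mod_cast hN)) X (by
      intro z hz
      obtain ⟨x, hx, hxB, rfl⟩ := hXmem z hz
      refine ⟨mul_ne_zero hq (by exact_mod_cast (hA x hx).1), (hA x hx).2, ?_⟩
      rw [hdiv x (hA x hx).1]
      exact (hB _ hxB).2)
    refine ⟨A.filter fun y => N / y ∈ B ∧ q * (y : K) ∈ Y',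
      fun y P Q => sf b (Algebra.norm ℚ (pt (q * (y : K)) P)) *
        sf b (Algebra.norm ℚ (pt (q' * ((N / y : ℚ) : K)) Q)),
      fun y P => sf b y ^ d / sf b (Algebra.norm ℚ (pt (q * (y : K)) P)), ?_, ?_⟩
    · refine le_trans ?_ hY'card
      refine Finset.card_le_card_of_injOn (fun x : ℚ => q * (x : K)) ?_ hinj.injOn
      intro y hy
      exact (Finset.mem_filter.1 hy).2.2
    intro x hx hxB
    have hx0 : x ≠ 0 := (hA x hx).1
    obtain ⟨z', hz', w, f, hw, hf, hxy⟩ := hY' (q * (x : K))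
      (Finset.mem_image_of_mem _ (Finset.mem_filter.2 ⟨hx, hxB⟩))
    obtain ⟨y, hy, hyB, rfl⟩ := hXmem z' (hY'X hz')
    have hy0 : y ≠ 0 := (hA y hy).1
    have hxK : (x : K) ≠ 0 := by exact_mod_cast hx0
    have hyK : (y : K) ≠ 0 := by exact_mod_cast hy0
    have hNK : (N : K) ≠ 0 := by exact_mod_cast hN
    have hw0 : (w : K) ≠ 0 := w.ne_zero
    have hxy1 : (x : K) = (w : K) * f * y := by
      refine mul_left_cancel₀ hq ?_
      rw [hxy]
      ring
    have hf0 : f ≠ 0 := by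
      rintro rfl
      apply hxK
      rw [hxy1]
      ring
    have hxy' : q' * ((N / x : ℚ) : K) = ((w⁻¹ : Kˣ) : K) * f⁻¹ * (q' * ((N / y : ℚ) : K)) := by
      push_cast
      rw [hxy1]
      field_simp
    have hN1 : q' * ((N / x : ℚ) : K) ≠ 0 := mul_ne_zero hq' (by exact_mod_cast (hB _ hxB).1)
    have hx1 : q * (x : K) ≠ 0 := mul_ne_zero hq hxK
    have sx := (hA x hx).2
    have sy := (hA y hy).2
    have sx' := (hB _ hxB).2
    have sy' := (hB _ hyB).2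
    obtain ⟨P', P, hP, hPne, v1, hv1, hv1'⟩ := hC2 h hh (c (q * (y : K))) (u (q * (y : K)))
      (c (q * (x : K))) (u (q * (x : K))) (hc _ sy) (hc _ sx) (hu _ sy) (hu _ sx) w f hw hf
      (by rw [← hcu _ sx, ← hcu _ sy]; exact hxy) (by rw [← hcu _ sx]; exact hx1)
    obtain ⟨Q', Q, hQ, hQne, v2, hv2, hv2'⟩ := hC2 h hh (c (q' * ((N / y : ℚ) : K)))
      (u (q' * ((N / y : ℚ) : K))) (c (q' * ((N / x : ℚ) : K))) (u (q' * ((N / x : ℚ) : K)))
      (hc _ sy') (hc _ sx') (hu _ sy') (hu _ sx') w⁻¹ f⁻¹ (Γ.inv_mem hw)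
      (by rw [logHeight₁_inv]; exact hf)
      (by rw [← hcu _ sx', ← hcu _ sy']; exact hxy') (by rw [← hcu _ sx']; exact hN1)
    have hP1 : pt (q * (x : K)) P' ≠ 0 := hPne
    have hQ1 : pt (q' * ((N / x : ℚ) : K)) Q' ≠ 0 := hQne
    have hP2 : pt (q * (x : K)) P' = w * f * pt (q * (y : K)) P := hP
    have hQ2 : pt (q' * ((N / x : ℚ) : K)) Q' = ((w⁻¹ : Kˣ) : K) * f⁻¹ *
        pt (q' * ((N / y : ℚ) : K)) Q := hQ
    have hal : lab (q * (x : K)) P' = sf b (Algebra.norm ℚ (pt (q * (x : K)) P')) := by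
      simp only [lab]
      rw [if_pos ⟨hP1, sfb _ v1 hP1 hv1 hv1'⟩]
    have hbe : lab (q' * ((N / x : ℚ) : K)) Q' =
        sf b (Algebra.norm ℚ (pt (q' * ((N / x : ℚ) : K)) Q')) := by
      simp only [lab]
      rw [if_pos ⟨hQ1, sfb _ v2 hQ1 hv2 hv2'⟩]
    have hpy : pt (q * (y : K)) P ≠ 0 := by
      intro h0
      apply hP1
      rw [hP2, h0, mul_zero]
    have hwf : (w : K) * f ≠ 0 := mul_ne_zero hw0 hf0
    have nwf : sf b (Algebra.norm ℚ ((w : K) * f)) ≠ 0 :=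
      (sf_pos b hb (Algebra.norm_ne_zero_iff.2 hwf)).ne'
    have npy : sf b (Algebra.norm ℚ (pt (q * (y : K)) P)) ≠ 0 :=
      (sf_pos b hb (Algebra.norm_ne_zero_iff.2 hpy)).ne'
    have hone : sf b (Algebra.norm ℚ ((w : K) * f)) *
        sf b (Algebra.norm ℚ (((w⁻¹ : Kˣ) : K) * f⁻¹)) = 1 := by
      rw [← sf_mul b hb, ← map_mul]
      have h1 : (w : K) * f * (((w⁻¹ : Kˣ) : K) * f⁻¹) = 1 := by
        rw [Units.val_inv_eq_inv_val]
        field_simp
      rw [h1, map_one]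
      simp [sf]
    have hal2 : lab (q * (x : K)) P' = sf b (Algebra.norm ℚ ((w : K) * f)) *
        sf b (Algebra.norm ℚ (pt (q * (y : K)) P)) := by
      rw [hal, hP2, map_mul (Algebra.norm ℚ) ((w : K) * f), sf_mul b hb]
    have hbe2 : lab (q' * ((N / x : ℚ) : K)) Q' =
        sf b (Algebra.norm ℚ (((w⁻¹ : Kˣ) : K) * f⁻¹)) *
        sf b (Algebra.norm ℚ (pt (q' * ((N / y : ℚ) : K)) Q)) := by
      rw [hbe, hQ2, map_mul (Algebra.norm ℚ) (((w⁻¹ : Kˣ) : K) * f⁻¹), sf_mul b hb]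
    refine ⟨y, Finset.mem_filter.2 ⟨hy, hyB, hz'⟩, P, P', Q, Q', ?_, ?_⟩
    · rw [hal2, hbe2]
      linear_combination (sf b (Algebra.norm ℚ (pt (q * (y : K)) P)) *
        sf b (Algebra.norm ℚ (pt (q' * ((N / y : ℚ) : K)) Q))) * hone
    · have h1 : x ^ d = Algebra.norm ℚ ((w : K) * f) * y ^ d := by
        rw [hd, ← norm_rat (K := K) x, ← norm_rat (K := K) y, ← map_mul, ← hxy1]
      have h2 : sf b (x ^ d) = sf b x ^ d := map_pow (sfHom b hb) x d
      have h3 : sf b (y ^ d) = sf b y ^ d := map_pow (sfHom b hb) y d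
      rw [hal2, ← h2, h1, sf_mul b hb, h3]
      field_simp
  have hfin := prod_abs b hb A B (fun a ha => (hA a ha).1) (fun a ha => (hB a ha).1) T C1 H d hd0
    hH1 hT (fun x P => lab (q * (x : K)) P) (fun x P => lab (q' * (x : K)) P)
    (fun x P => hlab0 _ P) (fun x P => hlab0 _ P) (fun x P => hlabbox _ P)
    (fun x P => hlabbox _ P) hkey
  refine hfin.trans ?_
  set C0 : ℕ := C1 * m1 ^ 4 + 2 * d * C2 with hC0
  have hHle : H ≤ ⌊Real.exp (C0 * (1 + h))⌋₊ := by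
    refine Nat.floor_le_floor (Real.exp_le_exp.2 ?_)
    rw [← mul_assoc]
    refine mul_le_mul_of_nonneg_right ?_ (by linarith)
    rw [hC0]
    push_cast
    have : (0 : ℝ) ≤ (C1 : ℝ) * (m1 : ℝ) ^ 4 := by positivity
    linarith
  refine Nat.mul_le_mul_right _ (Nat.mul_le_mul_right _ (Nat.mul_le_mul ?_
    (Nat.pow_le_pow_left (tau_mono (Nat.mul_le_mul hHle hHle)) _)))
  rw [hC0]
  exact Nat.le_add_right _ _

end Pool.Agent.K3h74.NF
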