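import Mathlib
import Pool.Agent.K3h74.NF.ProdK

/-!
# Products of many sets of integers which are short sums over a number field
-/

set_option autoImplicit false
set_option linter.unusedSectionVars false

open Finset
open scoped Pointwise

namespace Pool.Agent.K3h74.NF

open Height NumberField Pool.Agent.TH551.SU Pool.Agent.TH539.MQ Pool.Agent.K3h74.SS Module

variable {K : Type} [Field K] [NumberField K]

theorem tau_powE (C M : ℕ) (ε : ℝ) (hε : 0 < ε) :
    ∃ D : ℝ, 0 < D ∧ ∀ h : ℝ, 0 ≤ h →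
      ((tau (⌊Real.exp (C * (1 + h))⌋₊ * ⌊Real.exp (C * (1 + h))⌋₊) : ℕ) : ℝ) ^ M ≤
        D * Real.exp (ε * h) := by
  set η : ℝ := ε / (2 * C * M + 1) with hη
  have hη0 : 0 < η := by positivity
  obtain ⟨D, hD, hD'⟩ := tau_bound η hη0
  have hD0 : 0 < D := by linarith
  refine ⟨D ^ M * Real.exp ε, by positivity, fun h hh => ?_⟩
  set F : ℕ := ⌊Real.exp (C * (1 + h))⌋₊ with hF
  have he1 : (1 : ℝ) ≤ Real.exp (C * (1 + h)) := Real.one_le_exp (by positivity)
  have hF1 : 1 ≤ F := Nat.le_floor (by exact_mod_cast he1)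
  have hFe : (F : ℝ) ≤ Real.exp (C * (1 + h)) := Nat.floor_le (Real.exp_pos _).le
  have h1 := hD' (F * F) (Nat.mul_pos hF1 hF1)
  have h2 : ((F * F : ℕ) : ℝ) ≤ Real.exp (2 * C * (1 + h)) := by
    push_cast
    calc (F : ℝ) * F ≤ Real.exp (C * (1 + h)) * Real.exp (C * (1 + h)) :=
          mul_le_mul hFe hFe (Nat.cast_nonneg _) (Real.exp_pos _).le
      _ = Real.exp (2 * C * (1 + h)) := by rw [← Real.exp_add]; ring_nf
  calc ((tau (F * F) : ℕ) : ℝ) ^ M ≤ (D * ((F * F : ℕ) : ℝ) ^ η) ^ M :=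
        pow_le_pow_left₀ (Nat.cast_nonneg _) h1 M
    _ ≤ (D * (Real.exp (2 * C * (1 + h))) ^ η) ^ M := by
        refine pow_le_pow_left₀ (by positivity) ?_ M
        exact mul_le_mul_of_nonneg_left (Real.rpow_le_rpow (Nat.cast_nonneg _) h2 hη0.le) hD0.le
    _ = D ^ M * Real.exp ((2 * C * M * η) * (1 + h)) := by
        rw [mul_pow, ← Real.exp_mul, ← Real.exp_nat_mul]
        congr 2
        ring
    _ ≤ D ^ M * Real.exp (ε * (1 + h)) := by
        refine mul_le_mul_of_nonneg_left (Real.exp_le_exp.2 ?_) (by positivity)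
        refine mul_le_mul_of_nonneg_right ?_ (by linarith)
        rw [hη, mul_div_assoc', div_le_iff₀ (by positivity)]
        nlinarith
    _ = D ^ M * Real.exp ε * Real.exp (ε * h) := by
        rw [mul_assoc, ← Real.exp_add]
        congr 2
        ring

theorem ShK.mono {Γ : Subgroup Kˣ} {k k' : ℕ} {h h' : ℝ} {x : K} (hx : ShK Γ k h x) (hk : k ≤ k')
    (hh : h ≤ h') (h0 : 0 ≤ h') : ShK Γ k' h' x := by
  obtain ⟨c, u, hc, hu, rfl⟩ := hx
  obtain ⟨j, rfl⟩ := Nat.exists_eq_add_of_le hk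
  refine ⟨Fin.append c (fun _ : Fin j => 0), Fin.append u (fun _ : Fin j => 1), ?_, ?_, ?_⟩
  · intro i
    refine Fin.addCases (fun i => ?_) (fun i => ?_) i
    · rw [Fin.append_left]
      exact (hc i).trans hh
    · rw [Fin.append_right, logHeight₁_zero]
      exact h0
  · intro i
    refine Fin.addCases (fun i => ?_) (fun i => ?_) i
    · rw [Fin.append_left]
      exact hu i
    · rw [Fin.append_right]
      exact Γ.one_mem
  · rw [Fin.sum_univ_add]
    simp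

theorem ShK.mul {Γ : Subgroup Kˣ} {k k' : ℕ} {h h' : ℝ} {x y : K}
    (hx : ShK Γ k h x) (hy : ShK Γ k' h' y) : ShK Γ (k * k') (h + h') (x * y) := by
  obtain ⟨c, u, hc, hu, rfl⟩ := hx
  obtain ⟨d, v, hd, hv, rfl⟩ := hy
  let e : Fin (k * k') ≃ Fin k × Fin k' := finProdFinEquiv.symm
  refine ⟨fun i => c (e i).1 * d (e i).2, fun i => u (e i).1 * v (e i).2,
    fun i => (logHeight₁_mul_le _ _).trans (add_le_add (hc _) (hd _)),
    fun i => Γ.mul_mem (hu _) (hv _), ?_⟩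
  have h1 := Equiv.sum_comp e (fun p : Fin k × Fin k' => c p.1 * d p.2 * ((u p.1 : K) * (v p.2 : K)))
  simp only [Units.val_mul]
  rw [h1, Fintype.sum_prod_type, Finset.sum_mul_sum]
  refine Finset.sum_congr rfl fun i _ => Finset.sum_congr rfl fun j _ => ?_
  ring

open Classical in
/-- products of two sets of integers, the first of which has short fibres -/
theorem prod_twoK (Γ : Subgroup Kˣ) (hΓ : Γ.FG) {s : ℕ} (b : Fin s → ℕ)
    (hb : ∀ v, (b v).Prime) (hbi : Function.Injective b)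
    (hbΓ : ∀ u ∈ Γ, IsSU b (Algebra.norm ℚ (u : K))) (k k' : ℕ) (ε : ℝ) (hε : 0 < ε) :
    ∃ C : ℝ, 0 < C ∧ ∀ (h : ℝ) (T : ℕ) (A B : Finset ℤ) (q q' : K), 0 ≤ h → q ≠ 0 → q' ≠ 0 →
      (∀ a ∈ A, a ≠ 0 ∧ ShK Γ k h (q * (a : K))) → (∀ y ∈ B, y ≠ 0 ∧ ShK Γ k' h (q' * (y : K))) →
      (∀ a ∈ A, (A.filter fun x : ℤ => IsSU b ((x : ℚ) / a)).card ≤ T) →
      (A.card : ℝ) * B.card ≤ C * Real.exp (ε * h) * T * (A * B).card := by
  obtain ⟨C0, M, hC0⟩ := prod_K Γ hΓ (max k k') b hb hbi hbΓ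
  obtain ⟨D, hD, hD'⟩ := tau_powE C0 M ε hε
  refine ⟨((C0 : ℝ) + 1) * D, by positivity, fun h T A B q q' hh hq hq' hA hB hT => ?_⟩
  have hinj : Function.Injective (fun a : ℤ => (a : ℚ)) := Int.cast_injective
  set A' : Finset ℚ := A.image fun a : ℤ => (a : ℚ) with hA'
  set B' : Finset ℚ := B.image fun y : ℤ => (y : ℚ) with hB'
  have cA : A'.card = A.card := Finset.card_image_of_injective _ hinj
  have cB : B'.card = B.card := Finset.card_image_of_injective _ hinj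
  have cAB : (A' * B').card = (A * B).card := by
    have h1 : A' * B' = (A * B).image fun z : ℤ => (z : ℚ) := by
      ext z
      simp only [hA', hB', Finset.mem_mul, Finset.mem_image]
      constructor
      · rintro ⟨_, ⟨a, ha, rfl⟩, _, ⟨y, hy, rfl⟩, rfl⟩
        exact ⟨a * y, ⟨a, ha, y, hy, rfl⟩, by push_cast; ring⟩
      · rintro ⟨_, ⟨a, ha, y, hy, rfl⟩, rfl⟩
        exact ⟨a, ⟨a, ha, rfl⟩, y, ⟨y, hy, rfl⟩, by push_cast; ring⟩
    rw [h1]
    exact Finset.card_image_of_injective _ hinj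
  have h1 := hC0 h T A' B' q q' hh hq hq' (by
    intro a ha
    obtain ⟨x, hx, rfl⟩ := Finset.mem_image.1 ha
    have h2 := (hA x hx).2.mono (le_max_left k k') le_rfl hh
    refine ⟨by exact_mod_cast (hA x hx).1, ?_⟩
    rw [Rat.cast_intCast]
    exact h2)
    (by
    intro a ha
    obtain ⟨x, hx, rfl⟩ := Finset.mem_image.1 ha
    have h2 := (hB x hx).2.mono (le_max_right k k') le_rfl hh
    refine ⟨by exact_mod_cast (hB x hx).1, ?_⟩
    rw [Rat.cast_intCast]
    exact h2) (by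
    intro a ha
    obtain ⟨x, hx, rfl⟩ := Finset.mem_image.1 ha
    refine le_trans ?_ (hT x hx)
    have h2 : (A'.filter fun z => IsSU b (z / (x : ℚ))) ⊆
        (A.filter fun z : ℤ => IsSU b ((z : ℚ) / x)).image fun a : ℤ => (a : ℚ) := by
      intro z hz
      obtain ⟨hz1, hz2⟩ := Finset.mem_filter.1 hz
      obtain ⟨y, hy, rfl⟩ := Finset.mem_image.1 hz1
      exact Finset.mem_image.2 ⟨y, Finset.mem_filter.2 ⟨hy, hz2⟩, rfl⟩
    exact (Finset.card_le_card h2).trans Finset.card_image_le)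
  rw [cA, cB, cAB] at h1
  have h2 : (A.card : ℝ) * B.card ≤ C0 *
      ((tau (⌊Real.exp (C0 * (1 + h))⌋₊ * ⌊Real.exp (C0 * (1 + h))⌋₊) : ℕ) : ℝ) ^ M * T *
      (A * B).card := by
    exact_mod_cast h1
  refine h2.trans ?_
  refine mul_le_mul_of_nonneg_right (mul_le_mul_of_nonneg_right ?_ (Nat.cast_nonneg _))
    (Nat.cast_nonneg _)
  calc (C0 : ℝ) * ((tau (⌊Real.exp (C0 * (1 + h))⌋₊ * ⌊Real.exp (C0 * (1 + h))⌋₊) : ℕ) : ℝ) ^ M ≤
        ((C0 : ℝ) + 1) * (D * Real.exp (ε * h)) :=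
        mul_le_mul (by linarith) (hD' h hh) (by positivity) (by positivity)
    _ = ((C0 : ℝ) + 1) * D * Real.exp (ε * h) := by ring

open Classical in
/-- products of `m` copies of a set with short fibres and a further set -/
theorem prod_manyK (Γ : Subgroup Kˣ) (hΓ : Γ.FG) {s : ℕ} (b : Fin s → ℕ)
    (hb : ∀ v, (b v).Prime) (hbi : Function.Injective b)
    (hbΓ : ∀ u ∈ Γ, IsSU b (Algebra.norm ℚ (u : K))) (k m : ℕ) : ∀ (k' : ℕ) (ε : ℝ), 0 < ε →
    ∃ C : ℝ, 0 < C ∧ ∀ (h : ℝ) (T : ℕ) (A B : Finset ℤ) (q q' : K), 0 ≤ h → q ≠ 0 → q' ≠ 0 →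
      (∀ a ∈ A, a ≠ 0 ∧ ShK Γ k h (q * (a : K))) → (∀ y ∈ B, y ≠ 0 ∧ ShK Γ k' h (q' * (y : K))) →
      (∀ a ∈ A, (A.filter fun x : ℤ => IsSU b ((x : ℚ) / a)).card ≤ T) →
      (A.card : ℝ) ^ m * B.card ≤ C * Real.exp (ε * h) * (T : ℝ) ^ m * (A ^ m * B).card := by
  induction m with
  | zero =>
    intro k' ε hε
    refine ⟨1, one_pos, fun h T A B q q' hh hq hq' hA hB hT => ?_⟩
    rw [pow_zero, pow_zero, pow_zero, one_mul, one_mul, mul_one, one_mul]
    have h1 : (1 : ℝ) ≤ Real.exp (ε * h) := Real.one_le_exp (by positivity)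
    exact le_mul_of_one_le_left (Nat.cast_nonneg _) h1
  | succ m ih =>
    intro k' ε hε
    obtain ⟨C1, hC1, hC1'⟩ := ih (k * k') (ε / 4) (by positivity)
    obtain ⟨C2, hC2, hC2'⟩ := prod_twoK Γ hΓ b hb hbi hbΓ k k' (ε / 2) (by positivity)
    refine ⟨C2 * C1, by positivity, fun h T A B q q' hh hq hq' hA hB hT => ?_⟩
    have hh2 : 0 ≤ h + h := by linarith
    have h1 := hC2' h T A B q q' hh hq hq' hA hB hT
    have h2 := hC1' (h + h) T A (A * B) q (q * q') hh2 hq (mul_ne_zero hq hq')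
      (fun a ha => ⟨(hA a ha).1, (hA a ha).2.mono le_rfl (by linarith) hh2⟩) (by
        intro y hy
        obtain ⟨a, ha, z, hz, rfl⟩ := Finset.mem_mul.1 hy
        refine ⟨mul_ne_zero (hA a ha).1 (hB z hz).1, ?_⟩
        have e : q * q' * ((a * z : ℤ) : K) = (q * a) * (q' * z) := by push_cast; ring
        rw [e]
        exact (hA a ha).2.mul (hB z hz).2) hT
    have e1 : A ^ m * (A * B) = A ^ (m + 1) * B := by rw [pow_succ, mul_assoc]
    rw [e1] at h2
    have e2 : Real.exp (ε / 4 * (h + h)) = Real.exp (ε / 2 * h) := by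
      congr 1
      ring
    have e3 : Real.exp (ε / 2 * h) * Real.exp (ε / 2 * h) = Real.exp (ε * h) := by
      rw [← Real.exp_add]
      congr 1
      ring
    rw [e2] at h2
    calc (A.card : ℝ) ^ (m + 1) * B.card = (A.card : ℝ) ^ m * ((A.card : ℝ) * B.card) := by ring
      _ ≤ (A.card : ℝ) ^ m * (C2 * Real.exp (ε / 2 * h) * T * (A * B).card) :=
          mul_le_mul_of_nonneg_left h1 (by positivity)
      _ = (C2 * Real.exp (ε / 2 * h) * T) * ((A.card : ℝ) ^ m * (A * B).card) := by ring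
      _ ≤ (C2 * Real.exp (ε / 2 * h) * T) *
          (C1 * Real.exp (ε / 2 * h) * (T : ℝ) ^ m * (A ^ (m + 1) * B).card) :=
          mul_le_mul_of_nonneg_left h2 (by positivity)
      _ = (C2 * C1) * (Real.exp (ε / 2 * h) * Real.exp (ε / 2 * h)) * (T : ℝ) ^ (m + 1) *
          (A ^ (m + 1) * B).card := by ring
      _ = _ := by rw [e3]

end Pool.Agent.K3h74.NF
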