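import Mathlib
import Pool.Agent.K3h74.NF.ProdMK

/-!
# The blocks of the factorisations of a rational number into short sums over a number field
-/

set_option autoImplicit false
set_option linter.unusedSectionVars false

open Finset
open scoped Pointwise

namespace Pool.Agent.K3h74.NF

open Height NumberField Pool.Agent.TH551.SU Pool.Agent.TH539.MQ Pool.Agent.K3h74.SS Module

variable {K : Type} [Field K] [NumberField K]

/-- `z` is the sum of the terms `c z j * u z j` -/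
def Rp (Γ : Subgroup Kˣ) (k : ℕ) (h : ℝ) (c : K → Fin k → K) (u : K → Fin k → Kˣ) (z : K) : Prop :=
  (∀ j, logHeight₁ (c z j) ≤ h) ∧ (∀ j, u z j ∈ Γ) ∧ z = ∑ j, c z j * (u z j : K)

/-- the partial sums -/
def pt {k : ℕ} (c : K → Fin k → K) (u : K → Fin k → Kˣ) (x : K) (P : Finset (Fin k)) : K :=
  ∑ i ∈ P, c x i * (u x i : K)

set_option maxHeartbeats 4000000 in
open Classical in
theorem keyK (Γ : Subgroup Kˣ) (hΓ : Γ.FG) (k : ℕ) {s : ℕ} (b : Fin s → ℕ)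
    (hb : ∀ v, (b v).Prime) (hbi : Function.Injective b)
    (hbΓ : ∀ u ∈ Γ, IsSU b (Algebra.norm ℚ (u : K))) :
    ∃ C : ℕ, ∀ (h : ℝ) (c : K → Fin k → K) (u : K → Fin k → Kˣ) (q q' : K) (N : ℚ) (X : Finset ℚ),
      0 ≤ h → q ≠ 0 → q' ≠ 0 → N ≠ 0 →
      (∀ x ∈ X, x ≠ 0 ∧ Rp Γ k h c u (q * (x : K)) ∧ Rp Γ k h c u (q' * ((N / x : ℚ) : K))) →
      ∃ Y ⊆ X, Y.card ≤ C ∧ ∀ x ∈ X, ∃ y ∈ Y, ∃ P P' Q Q' : Finset (Fin k),
        pt c u (q * (x : K)) P' ≠ 0 ∧ pt c u (q' * ((N / x : ℚ) : K)) Q' ≠ 0 ∧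
        sf b (Algebra.norm ℚ (pt c u (q * (x : K)) P')) ∈ box ⌊Real.exp (C * (1 + h))⌋₊ ∧
        sf b (Algebra.norm ℚ (pt c u (q' * ((N / x : ℚ) : K)) Q')) ∈ box ⌊Real.exp (C * (1 + h))⌋₊ ∧
        sf b (Algebra.norm ℚ (pt c u (q * (x : K)) P')) *
          sf b (Algebra.norm ℚ (pt c u (q' * ((N / x : ℚ) : K)) Q')) =
          sf b (Algebra.norm ℚ (pt c u (q * (y : K)) P)) *
          sf b (Algebra.norm ℚ (pt c u (q' * ((N / y : ℚ) : K)) Q)) ∧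
        sf b x ^ finrank ℚ K = sf b (Algebra.norm ℚ (pt c u (q * (x : K)) P')) *
          (sf b y ^ finrank ℚ K / sf b (Algebra.norm ℚ (pt c u (q * (y : K)) P))) := by
  obtain ⟨C1, hC1⟩ := classesK Γ hΓ k
  obtain ⟨C2, hC2⟩ := blocksK Γ hΓ k C1
  set d : ℕ := finrank ℚ K with hd
  refine ⟨C1 + 2 * d * C2, ?_⟩
  intro h c u q q' N X hh hq hq' hN hX
  set H : ℕ := ⌊Real.exp (((C1 + 2 * d * C2 : ℕ) : ℝ) * (1 + h))⌋₊ with hH
  have hHle : ⌊Real.exp (2 * d * (C2 * (1 + h)))⌋₊ ≤ H := by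
    refine Nat.floor_le_floor (Real.exp_le_exp.2 ?_)
    rw [← mul_assoc]
    refine mul_le_mul_of_nonneg_right ?_ (by linarith)
    push_cast
    have : (0 : ℝ) ≤ C1 := Nat.cast_nonneg _
    linarith
  have box_le : ∀ {n n' : ℕ} {x : ℚ}, n ≤ n' → x ∈ box n → x ∈ box n' := by
    intro n n' x hnn hx
    obtain ⟨h1, h2⟩ := box_num hx
    have h3 : (n : ℝ) ≤ n' := by exact_mod_cast hnn
    exact mem_box (h1.trans h3) (h2.trans h3)
  have sfb : ∀ (z : K) (v0 : Kˣ), z ≠ 0 → v0 ∈ Γ → logHeight₁ (z / (v0 : K)) ≤ C2 * (1 + h) →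
      sf b (Algebra.norm ℚ z) ∈ box H := by
    intro z v0 hz hv0 hzv
    have h1 := norm_box (z / (v0 : K)) _ hzv
    have h2 : z / (v0 : K) ≠ 0 := div_ne_zero hz v0.ne_zero
    have h3 := sf_box b hb hbi h1 (Algebra.norm_ne_zero_iff.2 h2)
    have h4 : Algebra.norm ℚ z = Algebra.norm ℚ (z / (v0 : K)) * Algebra.norm ℚ (v0 : K) := by
      rw [← map_mul, div_mul_cancel₀ _ v0.ne_zero]
    rw [h4, sf_mul b hb, sf_isSU b hb hbi (hbΓ v0 hv0), mul_one]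
    exact box_le hHle h3
  have hinj : Function.Injective (fun x : ℚ => q * (x : K)) := by
    intro x y hxy
    have h1 : (x : K) = y := mul_left_cancel₀ hq hxy
    exact_mod_cast h1
  have hdiv : ∀ x : ℚ, x ≠ 0 → (q * q' * (N : K)) / (q * (x : K)) = q' * ((N / x : ℚ) : K) := by
    intro x hx
    have h1 : (x : K) ≠ 0 := by exact_mod_cast hx
    push_cast
    field_simp
  set X' : Finset K := X.image fun x : ℚ => q * (x : K) with hX'
  have hSh : ∀ z, Rp Γ k h c u z → ShK Γ k h z := fun z hz => ⟨c z, u z, hz.1, hz.2.1, hz.2.2⟩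
  obtain ⟨Y', hY'X, hY'card, hY'⟩ := hC1 h hh (q * q' * (N : K))
    (mul_ne_zero (mul_ne_zero hq hq') (by exact_mod_cast hN)) X' (by
    intro z hz
    obtain ⟨x, hx, rfl⟩ := Finset.mem_image.1 hz
    refine ⟨mul_ne_zero hq (by exact_mod_cast (hX x hx).1), hSh _ (hX x hx).2.1, ?_⟩
    rw [hdiv x (hX x hx).1]
    exact hSh _ (hX x hx).2.2)
  refine ⟨X.filter fun y => q * (y : K) ∈ Y', Finset.filter_subset _ _, ?_, ?_⟩
  · refine le_trans ?_ (hY'card.trans (Nat.le_add_right _ _))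
    refine Finset.card_le_card_of_injOn (fun x : ℚ => q * (x : K)) ?_ hinj.injOn
    intro y hy
    exact (Finset.mem_filter.1 hy).2
  intro x hx
  have hx0 : x ≠ 0 := (hX x hx).1
  obtain ⟨z', hz', w, f, hw, hf, hxy⟩ := hY' (q * (x : K)) (Finset.mem_image_of_mem _ hx)
  obtain ⟨y, hy, rfl⟩ := Finset.mem_image.1 (hY'X hz')
  have hy0 : y ≠ 0 := (hX y hy).1
  have hxK : (x : K) ≠ 0 := by exact_mod_cast hx0
  have hyK : (y : K) ≠ 0 := by exact_mod_cast hy0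
  have hNK : (N : K) ≠ 0 := by exact_mod_cast hN
  have hw0 : (w : K) ≠ 0 := w.ne_zero
  have hxy1 : (x : K) = (w : K) * f * y := by
    refine mul_left_cancel₀ hq ?_
    rw [hxy]
    ring
  have hf0 : f ≠ 0 := by
    rintro rfl
    apply hxK
    rw [hxy1]
    ring
  have hxy' : q' * ((N / x : ℚ) : K) = ((w⁻¹ : Kˣ) : K) * f⁻¹ * (q' * ((N / y : ℚ) : K)) := by
    push_cast
    rw [hxy1]
    field_simp
  have hN1 : q' * ((N / x : ℚ) : K) ≠ 0 := mul_ne_zero hq' (by exact_mod_cast div_ne_zero hN hx0)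
  have hx1 : q * (x : K) ≠ 0 := mul_ne_zero hq hxK
  have sx := (hX x hx).2.1
  have sy := (hX y hy).2.1
  have sx' := (hX x hx).2.2
  have sy' := (hX y hy).2.2
  obtain ⟨P', P, hP, hPne, v1, hv1, hv1'⟩ := hC2 h hh (c (q * (y : K))) (u (q * (y : K)))
    (c (q * (x : K))) (u (q * (x : K))) sy.1 sx.1 sy.2.1 sx.2.1 w f hw hf
    (by rw [← sx.2.2, ← sy.2.2]; exact hxy) (by rw [← sx.2.2]; exact hx1)
  obtain ⟨Q', Q, hQ, hQne, v2, hv2, hv2'⟩ := hC2 h hh (c (q' * ((N / y : ℚ) : K)))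
    (u (q' * ((N / y : ℚ) : K))) (c (q' * ((N / x : ℚ) : K))) (u (q' * ((N / x : ℚ) : K)))
    sy'.1 sx'.1 sy'.2.1 sx'.2.1 w⁻¹ f⁻¹ (Γ.inv_mem hw)
    (by rw [logHeight₁_inv]; exact hf)
    (by rw [← sx'.2.2, ← sy'.2.2]; exact hxy') (by rw [← sx'.2.2]; exact hN1)
  have hP1 : pt c u (q * (x : K)) P' ≠ 0 := hPne
  have hQ1 : pt c u (q' * ((N / x : ℚ) : K)) Q' ≠ 0 := hQne
  have hP2 : pt c u (q * (x : K)) P' = w * f * pt c u (q * (y : K)) P := hP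
  have hQ2 : pt c u (q' * ((N / x : ℚ) : K)) Q' = ((w⁻¹ : Kˣ) : K) * f⁻¹ *
      pt c u (q' * ((N / y : ℚ) : K)) Q := hQ
  have hpy : pt c u (q * (y : K)) P ≠ 0 := by
    intro h0
    apply hP1
    rw [hP2, h0, mul_zero]
  have hwf : (w : K) * f ≠ 0 := mul_ne_zero hw0 hf0
  have nwf : sf b (Algebra.norm ℚ ((w : K) * f)) ≠ 0 :=
    (sf_pos b hb (Algebra.norm_ne_zero_iff.2 hwf)).ne'
  have npy : sf b (Algebra.norm ℚ (pt c u (q * (y : K)) P)) ≠ 0 :=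
    (sf_pos b hb (Algebra.norm_ne_zero_iff.2 hpy)).ne'
  have hone : sf b (Algebra.norm ℚ ((w : K) * f)) *
      sf b (Algebra.norm ℚ (((w⁻¹ : Kˣ) : K) * f⁻¹)) = 1 := by
    rw [← sf_mul b hb, ← map_mul]
    have h1 : (w : K) * f * (((w⁻¹ : Kˣ) : K) * f⁻¹) = 1 := by
      rw [Units.val_inv_eq_inv_val]
      field_simp
    rw [h1, map_one]
    simp [sf]
  have hal2 : sf b (Algebra.norm ℚ (pt c u (q * (x : K)) P')) =
      sf b (Algebra.norm ℚ ((w : K) * f)) * sf b (Algebra.norm ℚ (pt c u (q * (y : K)) P)) := by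
    rw [hP2, map_mul (Algebra.norm ℚ) ((w : K) * f), sf_mul b hb]
  have hbe2 : sf b (Algebra.norm ℚ (pt c u (q' * ((N / x : ℚ) : K)) Q')) =
      sf b (Algebra.norm ℚ (((w⁻¹ : Kˣ) : K) * f⁻¹)) *
      sf b (Algebra.norm ℚ (pt c u (q' * ((N / y : ℚ) : K)) Q)) := by
    rw [hQ2, map_mul (Algebra.norm ℚ) (((w⁻¹ : Kˣ) : K) * f⁻¹), sf_mul b hb]
  refine ⟨y, Finset.mem_filter.2 ⟨hy, hz'⟩, P, P', Q, Q', hP1, hQ1, sfb _ v1 hP1 hv1 hv1',
    sfb _ v2 hQ1 hv2 hv2', ?_, ?_⟩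
  · rw [hal2, hbe2]
    linear_combination (sf b (Algebra.norm ℚ (pt c u (q * (y : K)) P)) *
      sf b (Algebra.norm ℚ (pt c u (q' * ((N / y : ℚ) : K)) Q))) * hone
  · have h1 : x ^ d = Algebra.norm ℚ ((w : K) * f) * y ^ d := by
      rw [hd, ← norm_rat (K := K) x, ← norm_rat (K := K) y, ← map_mul, ← hxy1]
    have h2 : sf b (x ^ d) = sf b x ^ d := map_pow (sfHom b hb) x d
    have h3 : sf b (y ^ d) = sf b y ^ d := map_pow (sfHom b hb) y d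
    rw [hal2, ← h2, h1, sf_mul b hb, h3]
    field_simp

end Pool.Agent.K3h74.NF
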