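import Mathlib
import Pool.Agent.K3h74.NF.Key

/-!
# Short sums with integral coefficients over number fields: a divisor bound
-/

set_option autoImplicit false
set_option linter.unusedSectionVars false

open Finset
open scoped Pointwise

namespace Pool.Agent.K3h74.NF

open Height NumberField Pool.Agent.TH551.SU Pool.Agent.TH539.MQ Pool.Agent.K3h74.SS Module

variable {K : Type} [Field K] [NumberField K]

/-- a sum of `k` terms `c u` with integral `c` of logarithmic height at most `h` and `u` in `Γ` -/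
def ShI (Γ : Subgroup Kˣ) (k : ℕ) (h : ℝ) (x : K) : Prop :=
  ∃ (c : Fin k → K) (u : Fin k → Kˣ), (∀ j, IsIntegral ℤ (c j)) ∧ (∀ j, logHeight₁ (c j) ≤ h) ∧
    (∀ j, u j ∈ Γ) ∧ x = ∑ j, c j * (u j : K)

theorem ShI.toK {Γ : Subgroup Kˣ} {k : ℕ} {h : ℝ} {x : K} (hx : ShI Γ k h x) : ShK Γ k h x := by
  obtain ⟨c, u, _, h1, h2, h3⟩ := hx
  exact ⟨c, u, h1, h2, h3⟩

theorem ShI.mono {Γ : Subgroup Kˣ} {k k' : ℕ} {h h' : ℝ} {x : K} (hx : ShI Γ k h x) (hk : k ≤ k')
    (hh : h ≤ h') (h0 : 0 ≤ h') : ShI Γ k' h' x := by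
  obtain ⟨c, u, hi, hc, hu, rfl⟩ := hx
  obtain ⟨j, rfl⟩ := Nat.exists_eq_add_of_le hk
  refine ⟨Fin.append c (fun _ : Fin j => 0), Fin.append u (fun _ : Fin j => 1), ?_, ?_, ?_, ?_⟩
  · intro i
    refine Fin.addCases (fun i => ?_) (fun i => ?_) i
    · rw [Fin.append_left]
      exact hi i
    · rw [Fin.append_right]
      exact isIntegral_zero
  · intro i
    refine Fin.addCases (fun i => ?_) (fun i => ?_) i
    · rw [Fin.append_left]
      exact (hc i).trans hh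
    · rw [Fin.append_right, logHeight₁_zero]
      exact h0
  · intro i
    refine Fin.addCases (fun i => ?_) (fun i => ?_) i
    · rw [Fin.append_left]
      exact hu i
    · rw [Fin.append_right]
      exact Γ.one_mem
  · rw [Fin.sum_univ_add]
    simp

theorem ShI.mul {Γ : Subgroup Kˣ} {k k' : ℕ} {h h' : ℝ} {x y : K}
    (hx : ShI Γ k h x) (hy : ShI Γ k' h' y) : ShI Γ (k * k') (h + h') (x * y) := by
  obtain ⟨c, u, hci, hc, hu, rfl⟩ := hx
  obtain ⟨d, v, hdi, hd, hv, rfl⟩ := hy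
  let e : Fin (k * k') ≃ Fin k × Fin k' := finProdFinEquiv.symm
  refine ⟨fun i => c (e i).1 * d (e i).2, fun i => u (e i).1 * v (e i).2,
    fun i => (hci _).mul (hdi _),
    fun i => (logHeight₁_mul_le _ _).trans (add_le_add (hc _) (hd _)),
    fun i => Γ.mul_mem (hu _) (hv _), ?_⟩
  have h1 := Equiv.sum_comp e (fun p : Fin k × Fin k' => c p.1 * d p.2 * ((u p.1 : K) * (v p.2 : K)))
  simp only [Units.val_mul]
  rw [h1, Fintype.sum_prod_type, Finset.sum_mul_sum]
  refine Finset.sum_congr rfl fun i _ => Finset.sum_congr rfl fun j _ => ?_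
  ring

theorem ShI.one {Γ : Subgroup Kˣ} {h : ℝ} (h0 : 0 ≤ h) : ShI Γ 1 h (1 : K) :=
  ⟨fun _ => 1, fun _ => 1, fun _ => isIntegral_one, fun _ => by rw [logHeight₁_one]; exact h0,
    fun _ => Γ.one_mem, by simp⟩

theorem ShI.prod {Γ : Subgroup Kˣ} {ι : Type} (T : Finset ι) {k : ℕ} {h : ℝ} (h0 : 0 ≤ h)
    (x : ι → K) (hx : ∀ i ∈ T, ShI Γ k h (x i)) :
    ShI Γ (k ^ T.card) (T.card * h) (∏ i ∈ T, x i) := by
  classical
  induction T using Finset.induction_on with
  | empty =>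
    rw [Finset.card_empty, pow_zero, Finset.prod_empty, Nat.cast_zero, zero_mul]
    exact ShI.one le_rfl
  | insert i T hi ih =>
    rw [Finset.card_insert_of_notMem hi, Finset.prod_insert hi, pow_succ']
    have h1 := (hx i (Finset.mem_insert_self _ _)).mul
      (ih fun j hj => hx j (Finset.mem_insert_of_mem hj))
    refine h1.mono le_rfl (le_of_eq ?_) (by positivity)
    push_cast
    ring

/-- all elements of `Γ` are units outside the primes `b i` -/
def Adm {s : ℕ} (b : Fin s → ℕ) (Γ : Subgroup Kˣ) : Prop :=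
  ∀ u ∈ Γ, ∃ n : ℕ, IsSU b (n : ℚ) ∧ IsIntegral ℤ ((n : K) * (u : K))

section
variable {s : ℕ} (b : Fin s → ℕ) (hb : ∀ v, (b v).Prime) (hbi : Function.Injective b)

include hb in
theorem sf_abs (x : ℚ) : sf b |x| = sf b x := by
  rcases abs_choice x with h | h
  · rw [h]
  · rw [h]
    have h3 : sf b (-1) = 1 := by simp [sf]
    rw [neg_eq_neg_one_mul, sf_mul b hb, h3, one_mul]

include hb hbi in
theorem sf_int (z : ℤ) (hz : z ≠ 0) : ∃ m : ℕ, 1 ≤ m ∧ sf b (z : ℚ) = m := by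
  obtain ⟨m, h1, _, h3⟩ := sf_nat b hb hbi z.natAbs (Int.natAbs_pos.2 hz)
  refine ⟨m, h1, ?_⟩
  rw [← sf_abs b hb, ← h3]
  congr 1
  rw [Nat.cast_natAbs]
  push_cast
  rfl

include hb hbi in
/-- the part prime to `S` of the norm of an `S`-integer is an integer -/
theorem sf_norm (x : K) (hx : x ≠ 0) (n : ℕ) (hn : IsSU b (n : ℚ))
    (hint : IsIntegral ℤ ((n : K) * x)) : ∃ m : ℕ, 1 ≤ m ∧ sf b (Algebra.norm ℚ x) = m := by
  obtain ⟨z, hz⟩ : ∃ z : ℤ, (z : ℚ) = Algebra.norm ℚ ((n : K) * x) := by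
    have h1 : IsIntegral ℤ (Algebra.norm ℚ ((n : K) * x)) := Algebra.isIntegral_norm ℚ hint
    obtain ⟨z, hz⟩ := IsIntegrallyClosed.isIntegral_iff.1 h1
    exact ⟨z, by simpa using hz⟩
  have hn0 : (n : ℚ) ≠ 0 := isSU_ne b hb hn
  have hnn : Algebra.norm ℚ ((n : K) * x) = (n : ℚ) ^ finrank ℚ K * Algebra.norm ℚ x := by
    rw [map_mul]
    congr 1
    have h1 : (n : K) = algebraMap ℚ K (n : ℚ) := by simp
    rw [h1, Algebra.norm_algebraMap]
  have hz0 : z ≠ 0 := by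
    rintro rfl
    rw [hnn] at hz
    have h1 := mul_ne_zero (pow_ne_zero (finrank ℚ K) hn0) (Algebra.norm_ne_zero_iff.2 hx)
    exact h1 (by rw [← hz]; simp)
  obtain ⟨m, hm1, hm2⟩ := sf_int b hb hbi z hz0
  refine ⟨m, hm1, ?_⟩
  rw [← hm2, hz, hnn, sf_mul b hb]
  have h2 : sf b ((n : ℚ) ^ finrank ℚ K) = 1 := sf_isSU b hb hbi (isSU_pow b hb hn _)
  rw [h2, one_mul]

include hb hbi in
theorem Adm.norm {Γ : Subgroup Kˣ} (h : Adm b Γ) : ∀ u ∈ Γ, IsSU b (Algebra.norm ℚ (u : K)) := by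
  intro u hu
  obtain ⟨n, hn, hni⟩ := h u hu
  obtain ⟨n', hn', hni'⟩ := h u⁻¹ (Γ.inv_mem hu)
  obtain ⟨m, hm1, hm⟩ := sf_norm b hb hbi (u : K) u.ne_zero n hn hni
  obtain ⟨m', hm1', hm'⟩ := sf_norm b hb hbi ((u⁻¹ : Kˣ) : K) (u⁻¹).ne_zero n' hn' hni'
  have h1 : sf b (Algebra.norm ℚ (u : K)) * sf b (Algebra.norm ℚ ((u⁻¹ : Kˣ) : K)) = 1 := by
    rw [← sf_mul b hb, ← map_mul, Units.mul_inv, map_one]
    simp [sf]
  rw [hm, hm'] at h1
  have h2 : m * m' = 1 := by exact_mod_cast h1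
  have h3 : m = 1 := Nat.eq_one_of_mul_eq_one_right h2
  refine isSU_of_sf b (Algebra.norm_ne_zero_iff.2 u.ne_zero) ?_ hb
  rw [hm, h3, Nat.cast_one]

include hb in
/-- partial sums are `S`-integers -/
theorem adm_sum {Γ : Subgroup Kˣ} (h : Adm b Γ) {ι : Type} (T : Finset ι) (c : ι → K) (u : ι → Kˣ)
    (hc : ∀ i ∈ T, IsIntegral ℤ (c i)) (hu : ∀ i ∈ T, u i ∈ Γ) :
    ∃ n : ℕ, IsSU b (n : ℚ) ∧ IsIntegral ℤ ((n : K) * ∑ i ∈ T, c i * (u i : K)) := by
  classical
  induction T using Finset.induction_on with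
  | empty =>
    refine ⟨1, ?_, ?_⟩
    · rw [Nat.cast_one]
      exact isSU_one b
    · rw [Finset.sum_empty, mul_zero]
      exact isIntegral_zero
  | insert i T hi ih =>
    obtain ⟨n, hn, hni⟩ := ih (fun j hj => hc j (Finset.mem_insert_of_mem hj))
      (fun j hj => hu j (Finset.mem_insert_of_mem hj))
    obtain ⟨n', hn', hni'⟩ := h (u i) (hu i (Finset.mem_insert_self _ _))
    refine ⟨n * n', ?_, ?_⟩
    · rw [Nat.cast_mul]
      exact isSU_mul b hb hn hn'
    · rw [Finset.sum_insert hi]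
      have e : ((n * n' : ℕ) : K) * (c i * (u i : K) + ∑ j ∈ T, c j * (u j : K)) =
          (n : K) * c i * ((n' : K) * (u i : K)) + (n' : K) * ((n : K) * ∑ j ∈ T, c j * (u j : K)) := by
        push_cast
        ring
      rw [e]
      have hnat : ∀ m : ℕ, IsIntegral ℤ (m : K) := fun m => by
        have := isIntegral_algebraMap (R := ℤ) (A := K) (x := (m : ℤ))
        simpa using this
      exact (((hnat n).mul (hc i (Finset.mem_insert_self _ _))).mul hni').add ((hnat n').mul hni)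

end

set_option maxHeartbeats 4000000 in
open Classical in
/-- few classes of factorisations of a rational number, for finite sets -/
theorem point_fin (Γ : Subgroup Kˣ) (hΓ : Γ.FG) (k : ℕ) {s : ℕ} (b : Fin s → ℕ)
    (hb : ∀ v, (b v).Prime) (hbi : Function.Injective b) (hadm : Adm b Γ) :
    ∃ C : ℕ, ∀ (h : ℝ) (q q' : K) (N : ℚ) (X : Finset ℚ),
      0 ≤ h → q ≠ 0 → q' ≠ 0 → N ≠ 0 →
      (∀ x ∈ X, x ≠ 0 ∧ ShI Γ k h (q * (x : K)) ∧ ShI Γ k h (q' * ((N / x : ℚ) : K))) →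
      (X.image (sf b)).card ≤ C * tau (⌊Real.exp (C * (1 + h))⌋₊ * ⌊Real.exp (C * (1 + h))⌋₊) := by
  obtain ⟨C1, hC1⟩ := keyK Γ hΓ k b hb hbi (hadm.norm b hb hbi)
  set m1 : ℕ := Fintype.card (Finset (Fin k)) with hm1
  have hm10 : 1 ≤ m1 := Fintype.card_pos
  refine ⟨C1 * m1 ^ 2, ?_⟩
  intro h q q' N X hh hq hq' hN hX
  set d : ℕ := finrank ℚ K with hd
  have hd0 : d ≠ 0 := (finrank_pos (R := ℚ) (M := K)).ne'
  have hrep : ∀ x : K, ShI Γ k h x → ∃ (c : Fin k → K) (u : Fin k → Kˣ),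
      (∀ j, IsIntegral ℤ (c j)) ∧ (∀ j, logHeight₁ (c j) ≤ h) ∧ (∀ j, u j ∈ Γ) ∧
        x = ∑ j, c j * (u j : K) := fun x hx => hx
  choose! c u hci hc hu hcu using hrep
  obtain ⟨Y, hYX, hYcard, hY⟩ := hC1 h c u q q' N X hh hq hq' hN (fun x hx =>
    ⟨(hX x hx).1, ⟨hc _ (hX x hx).2.1, hu _ (hX x hx).2.1, hcu _ (hX x hx).2.1⟩,
      ⟨hc _ (hX x hx).2.2, hu _ (hX x hx).2.2, hcu _ (hX x hx).2.2⟩⟩)
  set H : ℕ := ⌊Real.exp (C1 * (1 + h))⌋₊ with hH
  -- labels are natural numbers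
  have hlab : ∀ z : K, ShI Γ k h z → ∀ P, pt c u z P ≠ 0 →
      ∃ m : ℕ, 1 ≤ m ∧ sf b (Algebra.norm ℚ (pt c u z P)) = m := by
    intro z hz P hP
    obtain ⟨n, hn, hni⟩ := adm_sum b hb hadm P (c z) (u z) (fun i _ => hci z hz i)
      (fun i _ => hu z hz i)
    exact sf_norm b hb hbi _ hP n hn hni
  let R : ℚ → Finset (Fin k) → Finset (Fin k) → ℚ := fun y P Q =>
    sf b (Algebra.norm ℚ (pt c u (q * (y : K)) P)) *
      sf b (Algebra.norm ℚ (pt c u (q' * ((N / y : ℚ) : K)) Q))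
  let S : ℚ → Finset (Fin k) → ℚ := fun y P =>
    sf b y ^ d / sf b (Algebra.norm ℚ (pt c u (q * (y : K)) P))
  let Λ : Finset (ℚ × Finset (Fin k) × Finset (Fin k)) := Y ×ˢ (Finset.univ ×ˢ Finset.univ)
  let vals : ℚ × Finset (Fin k) × Finset (Fin k) → Finset ℚ := fun l =>
    if 1 ≤ (R l.1 l.2.1 l.2.2).num.natAbs ∧ (R l.1 l.2.1 l.2.2).num.natAbs ≤ H * H then
      ((R l.1 l.2.1 l.2.2).num.natAbs.divisors).image fun e : ℕ => (e : ℚ) * S l.1 l.2.1
    else ∅
  have hvals : ∀ l, (vals l).card ≤ tau (H * H) := by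
    intro l
    simp only [vals]
    split_ifs with h1
    · exact Finset.card_image_le.trans (le_tau h1.1 h1.2)
    · rw [Finset.card_empty]
      exact Nat.zero_le _
  have hsub : (X.image (sf b)).image (fun z => z ^ d) ⊆ Λ.biUnion vals := by
    intro z hz
    obtain ⟨w, hw, rfl⟩ := Finset.mem_image.1 hz
    obtain ⟨x, hx, rfl⟩ := Finset.mem_image.1 hw
    obtain ⟨y, hy, P, P', Q, Q', hP, hQ, hPb, hQb, hRR, hS⟩ := hY x hx
    obtain ⟨m, hm, hm'⟩ := hlab _ (hX x hx).2.1 P' hP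
    obtain ⟨m', hm1', hm1''⟩ := hlab _ (hX x hx).2.2 Q' hQ
    rw [hm'] at hPb hRR hS
    rw [hm1''] at hQb hRR
    have hle : ∀ n : ℕ, ((n : ℚ)) ∈ box H → n ≤ H := by
      intro n hn
      have h1 := (box_num hn).1
      rw [Rat.num_natCast] at h1
      rw [Int.cast_natCast, Nat.abs_cast] at h1
      exact_mod_cast h1
    have hR : R y P Q = ((m * m' : ℕ) : ℚ) := by
      show _ * _ = _
      rw [← hRR]
      push_cast
      rfl
    have hRn : (R y P Q).num.natAbs = m * m' := by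
      rw [hR, Rat.num_natCast, Int.natAbs_natCast]
    rw [Finset.mem_biUnion]
    refine ⟨(y, P, Q), by simp only [Λ, Finset.mem_product, Finset.mem_univ, and_true]; exact hy, ?_⟩
    simp only [vals]
    rw [if_pos (by
      rw [hRn]
      exact ⟨Nat.mul_pos hm hm1', Nat.mul_le_mul (hle m hPb) (hle m' hQb)⟩), Finset.mem_image]
    refine ⟨m, ?_, ?_⟩
    · rw [hRn, Nat.mem_divisors]
      exact ⟨Dvd.intro _ rfl, (Nat.mul_pos hm hm1').ne'⟩
    · rw [hS]
  have hinj : ((X.image (sf b)).image (fun z => z ^ d)).card = (X.image (sf b)).card := by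
    refine Finset.card_image_of_injOn ?_
    intro z hz w hw hzw
    obtain ⟨x, hx, rfl⟩ := Finset.mem_image.1 (Finset.mem_coe.1 hz)
    obtain ⟨y, hy, rfl⟩ := Finset.mem_image.1 (Finset.mem_coe.1 hw)
    exact (pow_left_inj₀ (sf_pos b hb (hX x hx).1).le (sf_pos b hb (hX y hy).1).le hd0).1 hzw
  have hHle : H ≤ ⌊Real.exp (((C1 * m1 ^ 2 : ℕ) : ℝ) * (1 + h))⌋₊ := by
    refine Nat.floor_le_floor (Real.exp_le_exp.2 ?_)
    refine mul_le_mul_of_nonneg_right ?_ (by linarith)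
    exact_mod_cast Nat.le_mul_of_pos_right _ (by positivity)
  calc (X.image (sf b)).card = ((X.image (sf b)).image (fun z => z ^ d)).card := hinj.symm
    _ ≤ (Λ.biUnion vals).card := Finset.card_le_card hsub
    _ ≤ Λ.card * tau (H * H) := Finset.card_biUnion_le_card_mul _ _ _ fun l _ => hvals l
    _ ≤ (C1 * m1 ^ 2) * tau (H * H) := by
        refine Nat.mul_le_mul_right _ ?_
        simp only [Λ, Finset.card_product, Finset.card_univ]
        rw [pow_two]
        exact Nat.mul_le_mul_right _ hYcard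
    _ ≤ _ := Nat.mul_le_mul_left _ (tau_mono (Nat.mul_le_mul hHle hHle))

open Classical in
/-- **The divisor bound**: a rational number has few factorisations into `m` rational numbers which
are short sums with integral coefficients -/
theorem point_m (Γ : Subgroup Kˣ) (hΓ : Γ.FG) (k : ℕ) {s : ℕ} (b : Fin s → ℕ)
    (hb : ∀ v, (b v).Prime) (hbi : Function.Injective b) (hadm : Adm b Γ) (m : ℕ) (ε : ℝ)
    (hε : 0 < ε) :
    ∃ C : ℝ, 0 < C ∧ ∀ (h : ℝ) (q : Fin m → K) (N : ℚ), 0 ≤ h → (∀ i, q i ≠ 0) → N ≠ 0 →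
      ∃ R : Finset ℚ, (R.card : ℝ) ≤ C * Real.exp (ε * h) ∧
        ∀ x : Fin m → ℚ, (∀ i, ShI Γ k h (q i * (x i : K))) → ∏ i, x i = N →
          ∀ i, ∃ ρ ∈ R, ρ ≠ 0 ∧ IsSU b (x i / ρ) := by
  set k' : ℕ := max k (k ^ (m - 1)) with hk'
  obtain ⟨C0, hC0⟩ := point_fin Γ hΓ k' b hb hbi hadm
  obtain ⟨D, hD, hD'⟩ := tau_powE C0 1 (ε / (m + 1)) (by positivity)
  refine ⟨m * (C0 * D) + 1, by positivity, fun h q N hh hq hN => ?_⟩
  set h' : ℝ := (m + 1) * h with hh'
  have hh'0 : 0 ≤ h' := by positivity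
  -- the sets of values
  let V : Fin m → Set ℚ := fun i => {x | x ≠ 0 ∧ ShI Γ k' h' (q i * (x : K)) ∧
    ShI Γ k' h' ((∏ j ∈ Finset.univ.erase i, q j) * ((N / x : ℚ) : K))}
  set t : ℕ := C0 * tau (⌊Real.exp (C0 * (1 + h'))⌋₊ * ⌊Real.exp (C0 * (1 + h'))⌋₊) with ht
  have hfin : ∀ i (X : Finset ℚ), (∀ x ∈ X, x ∈ V i) → (X.image (sf b)).card ≤ t := by
    intro i X hX
    exact hC0 h' (q i) (∏ j ∈ Finset.univ.erase i, q j) N X hh'0 (hq i)
      (Finset.prod_ne_zero_iff.2 fun j _ => hq j) hN (fun x hx => hX x hx)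
  have hW : ∀ i, ∃ R : Finset ℚ, R.card ≤ t ∧ ∀ x ∈ V i, ∃ ρ ∈ R, ρ ≠ 0 ∧ IsSU b (x / ρ) := by
    intro i
    have hsf : ((sf b) '' (V i)).Finite := by
      by_contra hinf
      obtain ⟨T, hT, hTc⟩ := Set.Infinite.exists_subset_card_eq (Set.not_finite.1 hinf) (t + 1)
      choose! g hg using fun z (hz : z ∈ T) => hT (Finset.mem_coe.2 hz)
      have h1 := hfin i (T.image g) (by
        intro x hx
        obtain ⟨z, hz, rfl⟩ := Finset.mem_image.1 hx
        exact (hg z hz).1)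
      have h2 : T ⊆ (T.image g).image (sf b) := by
        intro z hz
        exact Finset.mem_image.2 ⟨g z, Finset.mem_image_of_mem _ hz, (hg z hz).2⟩
      have h3 := Finset.card_le_card h2
      omega
    choose! g hg using fun z (hz : z ∈ (sf b) '' (V i)) => hz
    refine ⟨hsf.toFinset.image g, ?_, ?_⟩
    · have h1 := hfin i (hsf.toFinset.image g) (by
        intro x hx
        obtain ⟨z, hz, rfl⟩ := Finset.mem_image.1 hx
        exact (hg z (hsf.mem_toFinset.1 hz)).1)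
      have h2 : hsf.toFinset ⊆ (hsf.toFinset.image g).image (sf b) := by
        intro z hz
        exact Finset.mem_image.2 ⟨g z, Finset.mem_image_of_mem _ hz,
          (hg z (hsf.mem_toFinset.1 hz)).2⟩
      exact Finset.card_image_le.trans ((Finset.card_le_card h2).trans h1)
    · intro x hx
      have h1 : sf b x ∈ (sf b) '' (V i) := ⟨x, hx, rfl⟩
      obtain ⟨h2, h3⟩ := hg _ h1
      refine ⟨g (sf b x), Finset.mem_image_of_mem _ (hsf.mem_toFinset.2 h1), h2.1, ?_⟩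
      exact isSU_of_sf_eq b hb hx.1 h2.1 h3.symm
  choose R hRc hR using hW
  refine ⟨Finset.univ.biUnion R, ?_, ?_⟩
  · have h1 : ((Finset.univ.biUnion R).card : ℝ) ≤ m * t := by
      have h2 : (Finset.univ.biUnion R).card ≤ m * t := by
        refine (Finset.card_biUnion_le_card_mul _ _ t fun i _ => hRc i).trans ?_
        rw [Finset.card_univ, Fintype.card_fin]
      exact_mod_cast h2
    have h2 : (t : ℝ) ≤ C0 * (D * Real.exp (ε * h)) := by
      rw [ht]
      push_cast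
      refine mul_le_mul_of_nonneg_left ?_ (Nat.cast_nonneg _)
      have h3 := hD' h' hh'0
      rw [pow_one] at h3
      refine h3.trans (le_of_eq ?_)
      congr 2
      rw [hh']
      field_simp
    have h3 : 0 < Real.exp (ε * h) := Real.exp_pos _
    calc ((Finset.univ.biUnion R).card : ℝ) ≤ m * t := h1
      _ ≤ m * (C0 * (D * Real.exp (ε * h))) := mul_le_mul_of_nonneg_left h2 (Nat.cast_nonneg _)
      _ ≤ (m * (C0 * D) + 1) * Real.exp (ε * h) := by nlinarith
  · intro x hx hprod i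
    have hxi : ∀ j, x j ≠ 0 := by
      intro j h0
      apply hN
      rw [← hprod]
      exact Finset.prod_eq_zero (Finset.mem_univ j) h0
    have hrest : N / x i = ∏ j ∈ Finset.univ.erase i, x j := by
      rw [div_eq_iff (hxi i), ← hprod, mul_comm]
      exact (Finset.mul_prod_erase _ _ (Finset.mem_univ i)).symm
    have hm1 : (Finset.univ.erase i : Finset (Fin m)).card = m - 1 := by
      rw [Finset.card_erase_of_mem (Finset.mem_univ i), Finset.card_univ, Fintype.card_fin]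
    have hVi : x i ∈ V i := by
      refine ⟨hxi i, (hx i).mono (le_max_left _ _) ?_ hh'0, ?_⟩
      · rw [hh']
        have : (0 : ℝ) ≤ m * h := by positivity
        linarith
      · have h1 : (∏ j ∈ Finset.univ.erase i, q j) * ((N / x i : ℚ) : K) =
            ∏ j ∈ Finset.univ.erase i, q j * (x j : K) := by
          rw [hrest, Finset.prod_mul_distrib]
          push_cast
          rfl
        rw [h1]
        refine (ShI.prod _ hh _ fun j _ => hx j).mono ?_ ?_ hh'0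
        · rw [hm1]
          exact le_max_right _ _
        · rw [hm1, hh']
          refine mul_le_mul_of_nonneg_right ?_ hh
          have h2 : ((m - 1 : ℕ) : ℝ) ≤ (m : ℝ) := by exact_mod_cast Nat.sub_le m 1
          linarith
    obtain ⟨ρ, hρ, h1, h2⟩ := hR i (x i) hVi
    exact ⟨ρ, Finset.mem_biUnion.2 ⟨i, Finset.mem_univ i, hρ⟩, h1, h2⟩

end Pool.Agent.K3h74.NF
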