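import Mathlib
import Pool.Agent.K3h74.NF.Int
import Pool.Agent.K3h74.NF.Dec

/-!
# Sums and products of integers which are short sums over a number field
-/

set_option autoImplicit false
set_option linter.unusedSectionVars false

open Finset
open scoped Pointwise Classical

namespace Pool.Agent.K3h74.NF

open Height NumberField Pool.Agent.TH551.SU Pool.Agent.TH539.MQ Pool.Agent.K3h74.SS Module
  Pool.Agent.Y359.PE Pool.Agent.R849.RF

variable {K : Type} [Field K] [NumberField K]

/-- there are finitely many primes outside which all elements of the group are units -/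
theorem exists_adm (Γ : Subgroup Kˣ) (hΓ : Γ.FG) :
    ∃ P : Finset ℕ, 2 ∈ P ∧ (∀ p ∈ P, p.Prime) ∧
      ∀ (s : ℕ) (b : Fin s → ℕ), (∀ v, (b v).Prime) → (∀ p ∈ P, ∃ i, b i = p) → Adm b Γ := by
  obtain ⟨S, hS⟩ := hΓ
  have hex : ∀ x : K, ∃ n : ℕ, n ≠ 0 ∧ IsIntegral ℤ ((n : K) * x) := fun x => by
    obtain ⟨n, hn0, _, hint⟩ := exists_nat_le_mulHeight₁ x
    exact ⟨n, hn0, hint⟩
  choose g hg0 hg using hex
  refine ⟨insert 2 (S.biUnion fun u => (g (u : K)).primeFactors ∪
    (g ((u⁻¹ : Kˣ) : K)).primeFactors), Finset.mem_insert_self _ _, ?_, ?_⟩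
  · intro p hp
    rcases Finset.mem_insert.1 hp with rfl | hp
    · exact Nat.prime_two
    · obtain ⟨u, _, hu⟩ := Finset.mem_biUnion.1 hp
      rcases Finset.mem_union.1 hu with hu | hu
      · exact Nat.prime_of_mem_primeFactors hu
      · exact Nat.prime_of_mem_primeFactors hu
  · intro s b hb hP
    have key : ∀ u ∈ Γ, (∃ n : ℕ, IsSU b (n : ℚ) ∧ IsIntegral ℤ ((n : K) * (u : K))) ∧
        ∃ n : ℕ, IsSU b (n : ℚ) ∧ IsIntegral ℤ ((n : K) * ((u⁻¹ : Kˣ) : K)) := by
      intro u hu
      rw [← hS] at hu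
      have hmul : ∀ x y : K, (∃ n : ℕ, IsSU b (n : ℚ) ∧ IsIntegral ℤ ((n : K) * x)) →
          (∃ n : ℕ, IsSU b (n : ℚ) ∧ IsIntegral ℤ ((n : K) * y)) →
          ∃ n : ℕ, IsSU b (n : ℚ) ∧ IsIntegral ℤ ((n : K) * (x * y)) := by
        rintro x y ⟨n, hn, hni⟩ ⟨n', hn', hni'⟩
        refine ⟨n * n', ?_, ?_⟩
        · rw [Nat.cast_mul]
          exact isSU_mul b hb hn hn'
        · have e : ((n * n' : ℕ) : K) * (x * y) = (n : K) * x * ((n' : K) * y) := by
            push_cast
            ring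
          rw [e]
          exact hni.mul hni'
      induction hu using Subgroup.closure_induction with
      | mem u hu =>
        refine ⟨⟨g (u : K), isSU_nat b hb _ (hg0 _) fun p hp => hP p ?_, hg _⟩,
          ⟨g ((u⁻¹ : Kˣ) : K), isSU_nat b hb _ (hg0 _) fun p hp => hP p ?_, hg _⟩⟩
        · exact Finset.mem_insert_of_mem (Finset.mem_biUnion.2
            ⟨u, hu, Finset.mem_union_left _ hp⟩)
        · exact Finset.mem_insert_of_mem (Finset.mem_biUnion.2
            ⟨u, hu, Finset.mem_union_right _ hp⟩)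
      | one =>
        have h1 : ∃ n : ℕ, IsSU b (n : ℚ) ∧ IsIntegral ℤ ((n : K) * (1 : K)) := by
          refine ⟨1, ?_, ?_⟩
          · rw [Nat.cast_one]
            exact isSU_one b
          · rw [Nat.cast_one, one_mul]
            exact isIntegral_one
        refine ⟨?_, ?_⟩
        · rw [Units.val_one]
          exact h1
        · rw [inv_one, Units.val_one]
          exact h1
      | mul x y _ _ hx hy =>
        refine ⟨?_, ?_⟩
        · rw [Units.val_mul]
          exact hmul _ _ hx.1 hy.1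
        · rw [mul_inv, Units.val_mul]
          exact hmul _ _ hx.2 hy.2
      | inv x _ hx =>
        refine ⟨hx.2, ?_⟩
        rw [inv_inv]
        exact hx.1
    exact fun u hu => (key u hu).1

theorem pk_eq (m : ℕ) (A : Finset ℤ) : pk m A = A ^ m := by
  induction m with
  | zero =>
    rw [pow_zero]
    ext x
    simp [pk, Finset.mem_one]
  | succ m ih =>
    rw [pow_succ', ← ih]
    ext x
    simp only [pk, Finset.mem_image, Finset.mem_mul, Fintype.mem_piFinset]
    constructor
    · rintro ⟨f, hf, rfl⟩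
      exact ⟨f 0, hf 0, _, ⟨fun i => f i.succ, fun i => hf _, rfl⟩, (Fin.prod_univ_succ f).symm⟩
    · rintro ⟨a, ha, _, ⟨f, hf, rfl⟩, rfl⟩
      refine ⟨Fin.cons a f, ?_, ?_⟩
      · intro i
        refine Fin.cases ?_ (fun j => ?_) i
        · simpa using ha
        · simpa using hf j
      · rw [Fin.prod_univ_succ]
        simp

/-- few representations -/
theorem repsK (Γ : Subgroup Kˣ) (hΓ : Γ.FG) (k : ℕ) {s : ℕ} (b : Fin s → ℕ)
    (hb : ∀ v, (b v).Prime) (hbi : Function.Injective b) (hadm : Adm b Γ) (J : ℕ) (ε : ℝ)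
    (hε : 0 < ε) :
    ∃ C : ℝ, 0 < C ∧ ∀ (h : ℝ) (q : K) (T : ℕ) (A : Finset ℤ), 0 ≤ h → q ≠ 0 →
      (∀ a ∈ A, ShI Γ k h (q * (a : K))) → Few b T A → ∀ v : ℤ, v ≠ 0 →
      reps J A v ≤ (C * Real.exp (ε * h) * T) ^ J := by
  obtain ⟨C, hC, hC'⟩ := point_m Γ hΓ k b hb hbi hadm J ε hε
  refine ⟨C, hC, fun h q T A hh hq hA hT v hv => ?_⟩
  obtain ⟨R, hR, hR'⟩ := hC' h (fun _ => q) (v : ℚ) hh (fun _ => hq) (by exact_mod_cast hv)
  let Y : Finset ℤ := A.filter fun x => ∃ ρ ∈ R, ρ ≠ 0 ∧ IsSU b ((x : ℚ) / ρ)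
  have hY : Y.card ≤ R.card * T := by
    have h1 : Y ⊆ (R.filter fun ρ => ρ ≠ 0).biUnion fun ρ => A.filter fun x : ℤ =>
        IsSU b ((x : ℚ) / ρ) := by
      intro x hx
      obtain ⟨hx1, ρ, hρ, hρ0, hx2⟩ := Finset.mem_filter.1 hx
      exact Finset.mem_biUnion.2 ⟨ρ, Finset.mem_filter.2 ⟨hρ, hρ0⟩, Finset.mem_filter.2 ⟨hx1, hx2⟩⟩
    refine (Finset.card_le_card h1).trans ((Finset.card_biUnion_le_card_mul _ _ T ?_).trans
      (Nat.mul_le_mul_right _ (Finset.card_filter_le _ _)))
    intro ρ hρ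
    have hρ0 : ρ ≠ 0 := (Finset.mem_filter.1 hρ).2
    rcases (A.filter fun x : ℤ => IsSU b ((x : ℚ) / ρ)).eq_empty_or_nonempty with h0 | ⟨a, ha⟩
    · rw [h0, Finset.card_empty]
      exact Nat.zero_le _
    · obtain ⟨ha1, ha2⟩ := Finset.mem_filter.1 ha
      refine (Finset.card_le_card ?_).trans (hT a ha1)
      intro x hx
      obtain ⟨hx1, hx2⟩ := Finset.mem_filter.1 hx
      refine Finset.mem_filter.2 ⟨hx1, ?_⟩
      have h2 := isSU_div b hb hx2 ha2
      have h3 : (x : ℚ) / ρ / ((a : ℚ) / ρ) = (x : ℚ) / a := by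
        rcases eq_or_ne (a : ℚ) 0 with h4 | h4
        · exfalso
          rw [h4, zero_div] at ha2
          exact isSU_ne b hb ha2 rfl
        · field_simp
      rwa [h3] at h2
  have hsub : ((Fintype.piFinset fun _ : Fin J => A).filter fun f => ∏ i, f i = v) ⊆
      Fintype.piFinset fun _ : Fin J => Y := by
    intro f hf
    rw [Finset.mem_filter, Fintype.mem_piFinset] at hf
    rw [Fintype.mem_piFinset]
    intro i
    refine Finset.mem_filter.2 ⟨hf.1 i, ?_⟩
    refine hR' (fun j => (f j : ℚ)) (fun j => ?_) ?_ i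
    · rw [Rat.cast_intCast]
      exact hA _ (hf.1 j)
    · rw [← hf.2]
      push_cast
      rfl
  have h3 : reps J A v ≤ (Y.card : ℝ) ^ J := by
    have h4 := Finset.card_le_card hsub
    rw [Fintype.card_piFinset, Finset.prod_const, Finset.card_univ, Fintype.card_fin] at h4
    unfold reps
    exact_mod_cast h4
  refine h3.trans (pow_le_pow_left₀ (Nat.cast_nonneg _) ?_ J)
  calc (Y.card : ℝ) ≤ R.card * T := by exact_mod_cast hY
    _ ≤ C * Real.exp (ε * h) * T := mul_le_mul_of_nonneg_right hR (Nat.cast_nonneg _)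

/-- the decomposition, for sets without zero -/
theorem decK0 (Γ : Subgroup Kˣ) (hΓ : Γ.FG) (k : ℕ) (B : ℝ) (hB : 0 ≤ B) (ε : ℝ) (hε : 0 < ε)
    (J : ℕ) (hJ : 1 ≤ J) :
    ∃ c : ℝ, 0 < c ∧ ∀ (h : ℝ) (A : Finset ℤ) (q : K), 0 ≤ h → h ≤ B * (1 + Real.log A.card) →
      A.Nonempty → (0 : ℤ) ∉ A → q ≠ 0 → (∀ a ∈ A, ShK Γ k h (q * (a : K))) →
      ∃ A1 ⊆ A,
        (∀ X : Finset ℤ, X.Nonempty →
          c * ((A.card : ℝ) * X.card) ^ (-ε) * (A1.card * X.card) ≤ ((A1 + X).card : ℝ)) ∧
        (∀ X : Finset ℂ, X.Nonempty → (0 : ℂ) ∉ X →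
          c * ((A.card : ℝ) * X.card) ^ (-ε) * ((A \ A1).card * X.card) ≤
            ((AB X (A \ A1)).card : ℝ)) ∧
        ((∀ a ∈ A, ShI Γ k h (q * (a : K))) →
          ∀ v : ℤ, v ≠ 0 → c * reps J (A \ A1) v ≤ (A.card : ℝ) ^ ε) := by
  obtain ⟨P, h2P, hPp, hadmP⟩ := exists_adm Γ hΓ
  let b : Fin P.card → ℕ := fun i => ((P.equivFin.symm i : P) : ℕ)
  have hs : 1 ≤ P.card := Finset.card_pos.2 ⟨2, h2P⟩
  have hb : ∀ v, (b v).Prime := fun v => hPp _ (P.equivFin.symm v).2
  have hbi : Function.Injective b := Subtype.val_injective.comp P.equivFin.symm.injective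
  have hadm : Adm b Γ := hadmP _ b hb fun p hp => ⟨P.equivFin ⟨p, hp⟩, by simp [b]⟩
  obtain ⟨m, hm, e, he, hdec⟩ := decompA b hs hb ε hε J hJ
  obtain ⟨Cm, hCm, hCm'⟩ := prod_manyK Γ hΓ b hb hbi (hadm.norm b hb hbi) k m 1
    (m * e / (B + 1)) (by positivity)
  obtain ⟨Cr, hCr, hCr'⟩ := repsK Γ hΓ k b hb hbi hadm J (e / (B + 1)) (by positivity)
  obtain ⟨c, hc, hdec'⟩ := hdec (max Cm 1 * Real.exp e) (Cr * Real.exp e) (by positivity)
    (by positivity)
  refine ⟨c, hc, fun h A q hh hhB hA h0 hq hAS => ?_⟩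
  have hn : (1 : ℝ) ≤ A.card := by exact_mod_cast Finset.card_pos.2 hA
  have hn0 : (0 : ℝ) < A.card := by linarith
  have hexp : ∀ t : ℝ, 0 ≤ t → Real.exp (t / (B + 1) * h) ≤ Real.exp t * (A.card : ℝ) ^ t := by
    intro t ht
    have hlog : 0 ≤ Real.log A.card := Real.log_nonneg hn
    rw [Real.rpow_def_of_pos hn0, ← Real.exp_add]
    refine Real.exp_le_exp.2 ?_
    calc t / (B + 1) * h ≤ t / (B + 1) * (B * (1 + Real.log A.card)) :=
          mul_le_mul_of_nonneg_left hhB (by positivity)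
      _ = (B / (B + 1)) * (t * (1 + Real.log A.card)) := by ring
      _ ≤ 1 * (t * (1 + Real.log A.card)) := by
          refine mul_le_mul_of_nonneg_right ?_ (by positivity)
          rw [div_le_one (by positivity)]
          linarith
      _ = t + Real.log A.card * t := by ring
  obtain ⟨A1, hA1, hadd, hmul, hreps⟩ := hdec' A hA h0 (by
    intro T A' hA' hfew
    have h1 := hCm' h T A' {1} q 1 hh hq one_ne_zero
      (fun a ha => ⟨fun h => h0 (h ▸ hA' ha), hAS a (hA' ha)⟩) (by
        intro y hy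
        rw [Finset.mem_singleton] at hy
        subst hy
        refine ⟨one_ne_zero, ?_⟩
        rw [Int.cast_one, one_mul]
        exact (ShI.one hh).toK) hfew
    have e1 : A' ^ m * {1} = A' ^ m := by
      have : ({1} : Finset ℤ) = 1 := rfl
      rw [this, mul_one]
    rw [e1, Finset.card_singleton, Nat.cast_one, mul_one] at h1
    rw [pk_eq]
    refine h1.trans (mul_le_mul_of_nonneg_right ?_ (Nat.cast_nonneg _))
    rw [mul_pow, mul_pow, mul_pow]
    refine mul_le_mul_of_nonneg_right ?_ (by positivity)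
    have h2 : Cm ≤ (max Cm 1) ^ m := by
      refine (le_max_left Cm 1).trans ?_
      exact le_self_pow₀ (le_max_right _ _) (by omega)
    have h3 := hexp (m * e) (by positivity)
    have h4 : Real.exp (m * e) * (A.card : ℝ) ^ (m * e) = Real.exp e ^ m * ((A.card : ℝ) ^ e) ^ m := by
      rw [← Real.exp_nat_mul, ← Real.rpow_natCast ((A.card : ℝ) ^ e), ← Real.rpow_mul hn0.le,
        mul_comm e]
    rw [h4] at h3
    calc Cm * Real.exp (m * e / (B + 1) * h) ≤
          (max Cm 1) ^ m * (Real.exp e ^ m * ((A.card : ℝ) ^ e) ^ m) :=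
          mul_le_mul h2 h3 (by positivity) (by positivity)
      _ = (max Cm 1) ^ m * Real.exp e ^ m * ((A.card : ℝ) ^ e) ^ m := by ring)
  refine ⟨A1, hA1, hadd, hmul, fun hI => hreps fun T A' hA' hfew v hv => ?_⟩
  refine (hCr' h q T A' hh hq (fun a ha => hI a (hA' ha)) hfew v hv).trans ?_
  refine pow_le_pow_left₀ (by positivity) (mul_le_mul_of_nonneg_right ?_ (Nat.cast_nonneg _)) J
  calc Cr * Real.exp (e / (B + 1) * h) ≤ Cr * (Real.exp e * (A.card : ℝ) ^ e) :=
        mul_le_mul_of_nonneg_left (hexp e he.le) hCr.le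
    _ = Cr * Real.exp e * (A.card : ℝ) ^ e := by ring

/-- the decomposition -/
theorem decK (Γ : Subgroup Kˣ) (hΓ : Γ.FG) (k : ℕ) (B : ℝ) (hB : 0 ≤ B) (ε : ℝ) (hε : 0 < ε)
    (J : ℕ) (hJ : 1 ≤ J) :
    ∃ c : ℝ, 0 < c ∧ ∀ (h : ℝ) (A : Finset ℤ) (q : K), 0 ≤ h → h ≤ B * (1 + Real.log A.card) →
      A.Nonempty → q ≠ 0 → (∀ a ∈ A, ShK Γ k h (q * (a : K))) →
      ∃ A1 ⊆ A, (0 : ℤ) ∉ A \ A1 ∧
        (∀ X : Finset ℤ, X.Nonempty →
          c * ((A.card : ℝ) * X.card) ^ (-ε) * (A1.card * X.card) ≤ ((A1 + X).card : ℝ)) ∧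
        (∀ X : Finset ℂ, X.Nonempty → (0 : ℂ) ∉ X →
          c * ((A.card : ℝ) * X.card) ^ (-ε) * ((A \ A1).card * X.card) ≤
            ((AB X (A \ A1)).card : ℝ)) ∧
        ((∀ a ∈ A, ShI Γ k h (q * (a : K))) →
          ∀ v : ℤ, v ≠ 0 → c * reps J (A \ A1) v ≤ (A.card : ℝ) ^ ε) := by
  obtain ⟨c, hc, hdec⟩ := decK0 Γ hΓ k (2 * B) (by positivity) ε hε J hJ
  refine ⟨min (c / 2) 1, lt_min (by positivity) one_pos, fun h A q hh hhB hA hq hAS => ?_⟩
  have hn : (1 : ℝ) ≤ A.card := by exact_mod_cast Finset.card_pos.2 hA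
  have hcle : min (c / 2) 1 ≤ c / 2 := min_le_left _ _
  rcases (A.erase 0).eq_empty_or_nonempty with hE | hE
  · -- `A = {0}`
    refine ⟨A, Finset.Subset.rfl, by simp, ?_, ?_, ?_⟩
    · intro X hX
      have hA1 : A = {0} := by
        rw [Finset.eq_singleton_iff_nonempty_unique_mem]
        refine ⟨hA, fun x hx => ?_⟩
        by_contra hx0
        have : x ∈ A.erase 0 := Finset.mem_erase.2 ⟨hx0, hx⟩
        rw [hE] at this
        exact Finset.notMem_empty _ this
      have hX1 : (1 : ℝ) ≤ X.card := by exact_mod_cast hX.card_pos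
      have hAX : A + X = X := by
        rw [hA1]
        exact zero_add X
      have hc1 : A.card = 1 := by rw [hA1, Finset.card_singleton]
      rw [hAX, hc1, Nat.cast_one, one_mul]
      have h1 : (X.card : ℝ) ^ (-ε) ≤ 1 := Real.rpow_le_one_of_one_le_of_nonpos hX1 (by linarith)
      calc min (c / 2) 1 * (X.card : ℝ) ^ (-ε) * X.card ≤ 1 * 1 * X.card := by
            refine mul_le_mul_of_nonneg_right ?_ (Nat.cast_nonneg _)
            exact mul_le_mul (min_le_right _ _) h1 (by positivity) (by norm_num)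
        _ = X.card := by ring
    · intro X _ _
      rw [Finset.sdiff_self, Finset.card_empty, Nat.cast_zero, zero_mul, mul_zero]
      exact Nat.cast_nonneg _
    · intro _ v _
      have h1 : reps J (A \ A) v = 0 := by
        unfold reps
        rw [Finset.sdiff_self]
        have : (Fintype.piFinset fun _ : Fin J => (∅ : Finset ℤ)) = ∅ := by
          rw [Finset.eq_empty_iff_forall_notMem]
          intro f hf
          exact Finset.notMem_empty _ (Fintype.mem_piFinset.1 hf ⟨0, by omega⟩)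
        rw [this]
        simp
      rw [h1, mul_zero]
      positivity
  · set A' : Finset ℤ := A.erase 0 with hA'
    have hA'A : A' ⊆ A := Finset.erase_subset _ _
    have hcard : A'.card ≤ A.card := Finset.card_le_card hA'A
    have hcard2 : A.card ≤ 2 * A'.card := by
      have h1 := Finset.pred_card_le_card_erase (s := A) (a := (0 : ℤ))
      have h2 : 1 ≤ A'.card := hE.card_pos
      rw [← hA'] at h1
      omega
    have hn' : (1 : ℝ) ≤ A'.card := by exact_mod_cast hE.card_pos
    have hcardR : (A'.card : ℝ) ≤ A.card := by exact_mod_cast hcard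
    have hlogn' : 0 ≤ Real.log A'.card := Real.log_nonneg hn'
    have hlog : Real.log A.card ≤ 1 + Real.log A'.card := by
      have h1 : Real.log A.card ≤ Real.log (2 * A'.card) :=
        Real.log_le_log (by linarith) (by exact_mod_cast hcard2)
      rw [Real.log_mul (by norm_num) (by linarith)] at h1
      have h2 : Real.log 2 ≤ 1 := by
        have := Real.log_two_lt_d9
        linarith
      linarith
    obtain ⟨A1, hA1, hadd, hmul, hreps⟩ := hdec h A' q hh (by
      refine hhB.trans ?_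
      calc B * (1 + Real.log A.card) ≤ B * (2 * (1 + Real.log A'.card)) :=
            mul_le_mul_of_nonneg_left (by linarith) hB
        _ = 2 * B * (1 + Real.log A'.card) := by ring) hE (Finset.notMem_erase _ _) hq
      (fun a ha => hAS a (hA'A ha))
    by_cases h0A : (0 : ℤ) ∈ A
    · have hsd : A \ insert 0 A1 = A' \ A1 := by
        ext x
        simp only [Finset.mem_sdiff, Finset.mem_insert, hA', Finset.mem_erase]
        tauto
      refine ⟨insert 0 A1, Finset.insert_subset h0A (hA1.trans hA'A), by simp, ?_, ?_, ?_⟩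
      · intro X hX
        have hX1 : (1 : ℝ) ≤ X.card := by exact_mod_cast hX.card_pos
        have hpow : ((A.card : ℝ) * X.card) ^ (-ε) ≤ ((A'.card : ℝ) * X.card) ^ (-ε) :=
          Real.rpow_le_rpow_of_nonpos (by positivity)
            (mul_le_mul_of_nonneg_right hcardR (by linarith)) (by linarith)
        have hpow1 : ((A.card : ℝ) * X.card) ^ (-ε) ≤ 1 :=
          Real.rpow_le_one_of_one_le_of_nonpos (one_le_mul_of_one_le_of_one_le hn hX1)
            (by linarith)
        rcases A1.eq_empty_or_nonempty with hA1e | hA1e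
        · have h1 : (insert 0 A1 : Finset ℤ) + X = X := by
            rw [hA1e]
            exact zero_add X
          have h2 : (insert 0 A1 : Finset ℤ).card = 1 := by
            rw [hA1e]
            rfl
          rw [h1, h2, Nat.cast_one, one_mul]
          calc min (c / 2) 1 * ((A.card : ℝ) * X.card) ^ (-ε) * X.card ≤ 1 * 1 * X.card := by
                refine mul_le_mul_of_nonneg_right ?_ (Nat.cast_nonneg _)
                exact mul_le_mul (min_le_right _ _) hpow1 (by positivity) (by norm_num)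
            _ = X.card := by ring
        · have h1 : ((insert 0 A1 : Finset ℤ).card : ℝ) ≤ 2 * A1.card := by
            have h2 := Finset.card_insert_le (0 : ℤ) A1
            have h3 : 1 ≤ A1.card := hA1e.card_pos
            exact_mod_cast (by omega : (insert 0 A1 : Finset ℤ).card ≤ 2 * A1.card)
          have h2 := hadd X hX
          have h3 : ((A1 + X).card : ℝ) ≤ ((insert 0 A1 + X).card : ℝ) := by
            exact_mod_cast Finset.card_le_card
              (Finset.add_subset_add_right (Finset.subset_insert _ _))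
          calc min (c / 2) 1 * ((A.card : ℝ) * X.card) ^ (-ε) *
                (((insert 0 A1 : Finset ℤ).card : ℝ) * X.card) ≤
                (c / 2) * ((A'.card : ℝ) * X.card) ^ (-ε) * ((2 * A1.card) * X.card) := by
                refine mul_le_mul (mul_le_mul hcle hpow (by positivity) (by positivity))
                  (mul_le_mul_of_nonneg_right h1 (by linarith)) (by positivity) (by positivity)
            _ = c * ((A'.card : ℝ) * X.card) ^ (-ε) * (A1.card * X.card) := by ring
            _ ≤ _ := h2.trans h3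
      · intro X hX hX0
        have hX1 : (1 : ℝ) ≤ X.card := by exact_mod_cast hX.card_pos
        have hpow : ((A.card : ℝ) * X.card) ^ (-ε) ≤ ((A'.card : ℝ) * X.card) ^ (-ε) :=
          Real.rpow_le_rpow_of_nonpos (by positivity)
            (mul_le_mul_of_nonneg_right hcardR (by linarith)) (by linarith)
        rw [hsd]
        refine le_trans ?_ (hmul X hX hX0)
        refine mul_le_mul_of_nonneg_right ?_ (by positivity)
        exact mul_le_mul (hcle.trans (by linarith)) hpow (by positivity) hc.le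
      · intro hI v hv
        rw [hsd]
        have h1 := hreps (fun a ha => hI a (hA'A ha)) v hv
        have hr0 : 0 ≤ reps J (A' \ A1) v := by unfold reps; positivity
        calc min (c / 2) 1 * reps J (A' \ A1) v ≤ c * reps J (A' \ A1) v :=
              mul_le_mul_of_nonneg_right (hcle.trans (by linarith)) hr0
          _ ≤ (A'.card : ℝ) ^ ε := h1
          _ ≤ (A.card : ℝ) ^ ε := Real.rpow_le_rpow (by linarith) hcardR hε.le
    · have hAA : A' = A := Finset.erase_eq_of_notMem h0A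
      rw [hAA] at hA1 hadd hmul hreps
      refine ⟨A1, hA1, fun h => h0A (Finset.mem_sdiff.1 h).1, ?_, ?_, ?_⟩
      · intro X hX
        refine le_trans ?_ (hadd X hX)
        refine mul_le_mul_of_nonneg_right ?_ (by positivity)
        exact mul_le_mul_of_nonneg_right (hcle.trans (by linarith)) (by positivity)
      · intro X hX hX0
        refine le_trans ?_ (hmul X hX hX0)
        refine mul_le_mul_of_nonneg_right ?_ (by positivity)
        exact mul_le_mul_of_nonneg_right (hcle.trans (by linarith)) (by positivity)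
      · intro hI v hv
        have hr0 : 0 ≤ reps J (A \ A1) v := by unfold reps; positivity
        refine le_trans ?_ (hreps hI v hv)
        exact mul_le_mul_of_nonneg_right (hcle.trans (by linarith)) hr0

/-- the `m`-fold sum-product conjecture for sets with a large part of short sums -/
theorem spK (Γ : Subgroup Kˣ) (hΓ : Γ.FG) (k m : ℕ) (B : ℝ) (hB : 0 ≤ B) (ε : ℝ) (hε : 0 < ε) :
    ∃ δ : ℝ, 0 < δ ∧ ∃ c : ℝ, 0 < c ∧ ∀ (h : ℝ) (A A' : Finset ℤ) (q : K), 0 ≤ h →
      h ≤ B * Real.log A.card → A.Nonempty → A' ⊆ A → (A.card : ℝ) ^ (1 - δ) ≤ A'.card → q ≠ 0 →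
      (∀ a ∈ A', ShK Γ k h (q * (a : K))) →
      c * (A.card : ℝ) ^ ((m : ℝ) - ε) ≤ max ((sk m A).card : ℝ) ((pk m A).card : ℝ) := by
  set ε1 : ℝ := min (ε / (2 * (m ^ 2 + 1))) (1 / (m + 1)) with hε1
  have hε10 : 0 < ε1 := lt_min (by positivity) (by positivity)
  have h1a : ε1 * m ^ 2 ≤ ε / 2 := by
    have h1 : ε1 ≤ ε / (2 * (m ^ 2 + 1)) := min_le_left _ _
    rw [le_div_iff₀ (by positivity)] at h1
    nlinarith
  have h1b : ε1 * m ^ 2 ≤ m := by
    have h1 : ε1 ≤ 1 / (m + 1) := min_le_right _ _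
    rw [le_div_iff₀ (by positivity)] at h1
    have hm0 : (0 : ℝ) ≤ m := Nat.cast_nonneg _
    nlinarith [mul_nonneg hm0 hε10.le]
  set δ : ℝ := min (1 / 2) (ε / (2 * (m + 1))) with hδ
  have hδ0 : 0 < δ := lt_min (by norm_num) (by positivity)
  have hδ1 : δ ≤ 1 / 2 := min_le_left _ _
  have hδ2 : δ * m ≤ ε / 2 := by
    have h1 : δ ≤ ε / (2 * (m + 1)) := min_le_right _ _
    rw [le_div_iff₀ (by positivity)] at h1
    nlinarith
  obtain ⟨c, hc, hdec⟩ := decK Γ hΓ k (2 * B) (by positivity) ε1 hε10 1 le_rfl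
  refine ⟨δ, hδ0, (min c 1 / 2) ^ m, by positivity, ?_⟩
  intro h A A' q hh hhB hA hAA hbig hq hAS
  have hn : (1 : ℝ) ≤ A.card := by exact_mod_cast hA.card_pos
  have hn0 : (0 : ℝ) < A.card := by linarith
  have hA'pos : (0 : ℝ) < A'.card := lt_of_lt_of_le (by positivity) hbig
  have hA'1 : (1 : ℝ) ≤ A'.card := (Real.one_le_rpow hn (by linarith)).trans hbig
  have hA'ne : A'.Nonempty := by
    rw [← Finset.card_pos]
    exact_mod_cast hA'pos
  have hlog : Real.log A.card ≤ 2 * Real.log A'.card := by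
    have h1 := Real.log_le_log (by positivity) hbig
    rw [Real.log_rpow hn0] at h1
    have h2 : 0 ≤ Real.log A.card := Real.log_nonneg hn
    nlinarith
  have hlog' : 0 ≤ Real.log A'.card := Real.log_nonneg hA'1
  obtain ⟨A1, hA1, h0, hadd, hmul, _⟩ := hdec h A' q hh (by
    refine hhB.trans ?_
    calc B * Real.log A.card ≤ B * (2 * Real.log A'.card) := mul_le_mul_of_nonneg_left hlog hB
      _ ≤ 2 * B * (1 + Real.log A'.card) := by nlinarith) hA'ne hq hAS
  have h1 := maxA (min c 1) ε1 (lt_min hc one_pos) (min_le_right _ _) hε10 m A' A1 hA'ne hA1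
    (fun X hX => le_trans (mul_le_mul_of_nonneg_right (mul_le_mul_of_nonneg_right
      (min_le_left _ _) (by positivity)) (by positivity)) (hadd X hX))
    (fun X hX hX0 => le_trans (mul_le_mul_of_nonneg_right (mul_le_mul_of_nonneg_right
      (min_le_left _ _) (by positivity)) (by positivity)) (hmul X hX hX0)) h0
  have h2 : (A.card : ℝ) ^ ((m : ℝ) - ε) ≤ (A'.card : ℝ) ^ ((m : ℝ) - ε1 * m ^ 2) := by
    calc (A.card : ℝ) ^ ((m : ℝ) - ε) ≤ (A.card : ℝ) ^ ((1 - δ) * ((m : ℝ) - ε1 * m ^ 2)) := by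
          refine Real.rpow_le_rpow_of_exponent_le hn ?_
          have h3 : 0 ≤ δ * (ε1 * m ^ 2) := by positivity
          nlinarith
      _ = ((A.card : ℝ) ^ (1 - δ)) ^ ((m : ℝ) - ε1 * m ^ 2) := Real.rpow_mul hn0.le _ _
      _ ≤ (A'.card : ℝ) ^ ((m : ℝ) - ε1 * m ^ 2) :=
          Real.rpow_le_rpow (by positivity) hbig (by linarith)
  refine (mul_le_mul_of_nonneg_left h2 (by positivity)).trans (h1.trans ?_)
  refine max_le_max ?_ ?_
  · exact_mod_cast Finset.card_le_card (sk_mono hAA)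
  · exact_mod_cast Finset.card_le_card (pk_mono hAA)

end Pool.Agent.K3h74.NF
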